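import Pool.Agent.Y703.QT8.Rot
import Pool.Agent.H336R4.PF.TaskP

/-! QT-T8, part 4: `T8a`, `T8d`. -/

set_option autoImplicit false

namespace Pool.Agent.Y703.QT8

open Complex MeasureTheory Filter Topology Set
open Pool.Agent.Y19.QT
open Pool.Agent.H306R2.RZ (js Gk)
open scoped ENNReal ComplexConjugate

variable {Q : ℕ} {lam : ℕ → ℝ} (T : Twists Q lam)

/-- lower bound for the Gamma function in a strip -/
lemma gamma_low : ∃ c : ℝ, 0 < c ∧ ∀ s : ℂ, 1 / 2 ≤ s.re → s.re ≤ 4 →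
    c * Real.exp (-(Real.pi / 2 * |s.im|)) ≤ ‖Complex.Gamma s‖ := by
  have hcont : ContinuousOn Real.Gamma (Icc (1 / 2 : ℝ) 4) := by
    intro x hx
    have hx0 : 0 < x := by linarith [hx.1]
    refine (Real.differentiableAt_Gamma (fun m => ?_)).continuousAt.continuousWithinAt
    have : (0 : ℝ) ≤ m := Nat.cast_nonneg m
    linarith
  obtain ⟨x₁, hx₁, hmin⟩ := isCompact_Icc.exists_isMinOn
    (nonempty_Icc.2 (by norm_num : (1 / 2 : ℝ) ≤ 4)) hcont
  have hG1 : 0 < Real.Gamma x₁ := Real.Gamma_pos_of_pos (by linarith [hx₁.1])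
  have hG2 : 0 < Real.Gamma (1 / 2) := Real.Gamma_pos_of_pos (by norm_num)
  refine ⟨Real.Gamma x₁ / Real.Gamma (1 / 2), by positivity, fun s h1 h2 => ?_⟩
  have hs : ((s.re : ℝ) : ℂ) + (s.im : ℂ) * I = s := Complex.re_add_im s
  have hp1 := Pool.Agent.H336R4.PF.taskP1 (1 / 2) s.re s.im (by norm_num) h1
  have hp2 := Pool.Agent.H336R4.PF.taskP2 s.im
  rw [hs] at hp1
  have h3 : Real.Gamma x₁ ≤ Real.Gamma s.re := hmin ⟨h1, h2⟩
  have h4 : Real.exp (-(Real.pi / 2 * |s.im|)) ≤ ‖Complex.Gamma (((1 / 2 : ℝ) : ℂ) + s.im * I)‖ := by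
    have h5 : Real.exp (-(Real.pi / 2 * |s.im|)) ^ 2 ≤
        ‖Complex.Gamma (((1 / 2 : ℝ) : ℂ) + s.im * I)‖ ^ 2 := by
      have e : ‖Complex.Gamma (((1 / 2 : ℝ) : ℂ) + s.im * I)‖ ^ 2 = Real.pi / Real.cosh (Real.pi * s.im) := by
        simpa using hp2
      rw [e, ← Real.exp_nat_mul, le_div_iff₀ (Real.cosh_pos _)]
      have h6 : Real.cosh (Real.pi * s.im) ≤ Real.exp (Real.pi * |s.im|) := by
        rw [← Real.cosh_abs, abs_mul, abs_of_pos Real.pi_pos, Real.cosh_eq]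
        have : Real.exp (-(Real.pi * |s.im|)) ≤ Real.exp (Real.pi * |s.im|) := by
          apply Real.exp_le_exp.2
          have : 0 ≤ Real.pi * |s.im| := by positivity
          linarith
        linarith
      calc _ ≤ Real.exp (((2 : ℕ) : ℝ) * -(Real.pi / 2 * |s.im|)) * Real.exp (Real.pi * |s.im|) := by
            gcongr
        _ = 1 := by rw [← Real.exp_add]; push_cast; ring_nf; exact Real.exp_zero
        _ ≤ Real.pi := by linarith [Real.pi_gt_three]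
    exact le_of_sq_le_sq h5 (norm_nonneg _)
  rw [div_mul_eq_mul_div, div_le_iff₀ hG2]
  calc Real.Gamma x₁ * Real.exp (-(Real.pi / 2 * |s.im|))
      ≤ Real.Gamma s.re * ‖Complex.Gamma (((1 / 2 : ℝ) : ℂ) + s.im * I)‖ := by
        have := Real.Gamma_pos_of_pos (show 0 < s.re by linarith)
        gcongr
    _ = ‖Complex.Gamma (((1 / 2 : ℝ) : ℂ) + s.im * I)‖ * Real.Gamma s.re := mul_comm _ _
    _ ≤ _ := hp1

lemma ell_eq (d : ℤ) (s : ℂ) : T.ell d s =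
    (2 * Real.pi / (T.q d : ℂ)) ^ (s + 1 / 2) * (Complex.Gamma (s + 1 / 2))⁻¹ * MM T d 0 (s + 1 / 2) := by
  unfold Twists.ell
  rw [mm_zero]

lemma q_ne {d : ℤ} (hd : Squarefree d) : (2 * Real.pi / (T.q d : ℂ)) ≠ 0 := by
  have h1 : (T.q d : ℂ) ≠ 0 := by exact_mod_cast (q_pos T hd).ne'
  have h2 : (Real.pi : ℂ) ≠ 0 := by exact_mod_cast Real.pi_pos.ne'
  exact div_ne_zero (mul_ne_zero two_ne_zero h2) h1

lemma q_cast (d : ℤ) : (2 * Real.pi / (T.q d : ℂ)) = ((2 * Real.pi / T.q d : ℝ) : ℂ) := by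
  push_cast; rfl

lemma ell_diff {d : ℤ} (hd : Squarefree d) : Differentiable ℂ (T.ell d) := by
  have h0 : |(0 : ℝ)| < Real.pi / 2 := by rw [abs_zero]; positivity
  have e : T.ell d = fun s : ℂ => (2 * Real.pi / (T.q d : ℂ)) ^ (s + 1 / 2) *
      (Complex.Gamma (s + 1 / 2))⁻¹ * MM T d 0 (s + 1 / 2) := funext (ell_eq T d)
  rw [e]
  have h1 : Differentiable ℂ fun s : ℂ => (2 * Real.pi / (T.q d : ℂ)) ^ (s + 1 / 2) := by
    intro s
    exact DifferentiableAt.const_cpow (by fun_prop) (Or.inl (q_ne T hd))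
  have h2 : Differentiable ℂ fun s : ℂ => (Complex.Gamma (s + 1 / 2))⁻¹ :=
    Complex.differentiable_one_div_Gamma.comp (by fun_prop)
  have h3 : Differentiable ℂ fun s : ℂ => MM T d 0 (s + 1 / 2) :=
    (mm_diff T hd h0).comp (by fun_prop)
  exact (h1.mul h2).mul h3

lemma ell_dir {d : ℤ} (hd : Squarefree d) {s : ℂ} (hs : 2 < s.re) :
    T.ell d s = ∑' n : ℕ, (T.cf d n : ℂ) * (n : ℂ) ^ (-s) := by
  have h0 : |(0 : ℝ)| < Real.pi / 2 := by rw [abs_zero]; positivity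
  have hq := q_pos T hd
  have hpi := Real.pi_pos
  have hs' : 5 / 2 < (s + 1 / 2).re := by
    have : (s + 1 / 2).re = s.re + 1 / 2 := by simp
    rw [this]; linarith
  have hG : Complex.Gamma (s + 1 / 2) ≠ 0 := Complex.Gamma_ne_zero_of_re_pos (by linarith)
  rw [ell_eq, mm_series T hd h0 hs']
  have e1 : cexp (-(((0 : ℝ) : ℂ) * I * (s + 1 / 2))) = 1 := by simp
  rw [e1, one_mul, mul_assoc, inv_mul_cancel_left₀ hG, ← tsum_mul_left]
  refine tsum_congr fun n => ?_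
  rcases Nat.eq_zero_or_pos n with rfl | hn
  · simp [bb_zero, cf_zero]
  have hn' : (0 : ℝ) < n := by exact_mod_cast hn
  have e2 : ((T.q d / (2 * Real.pi * n) : ℝ) : ℂ) ^ (s + 1 / 2) =
      (((2 * Real.pi / T.q d : ℝ) : ℂ) ^ (s + 1 / 2))⁻¹ * ((n : ℂ) ^ (s + 1 / 2))⁻¹ := by
    have e3 : (T.q d / (2 * Real.pi * n) : ℝ) = ((2 * Real.pi / T.q d) * n)⁻¹ := by
      field_simp
    rw [e3, Complex.ofReal_inv, Complex.inv_cpow, Complex.ofReal_mul,
      Complex.mul_cpow_ofReal_nonneg (by positivity) (by positivity), mul_inv, Complex.ofReal_natCast]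
    rw [Complex.arg_ofReal_of_nonneg (by positivity)]
    exact hpi.ne
  have hne : ((2 * Real.pi / T.q d : ℝ) : ℂ) ^ (s + 1 / 2) ≠ 0 := by
    rw [← q_cast, Complex.cpow_ne_zero_iff]
    exact Or.inl (q_ne T hd)
  have hnC : (n : ℂ) ≠ 0 := by exact_mod_cast hn.ne'
  have e4 : ((n : ℂ) ^ (s + 1 / 2))⁻¹ = (n : ℂ) ^ (-s) * ((Real.sqrt n : ℝ) : ℂ)⁻¹ := by
    rw [Complex.cpow_add _ _ hnC, mul_inv, Complex.cpow_neg, Real.sqrt_eq_rpow,
      Complex.ofReal_cpow hn'.le]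
    push_cast
    rfl
  have hsq : ((Real.sqrt n : ℝ) : ℂ) ≠ 0 := by
    exact_mod_cast (Real.sqrt_pos.2 hn').ne'
  rw [q_cast, e2, e4]
  unfold bb
  rw [Complex.ofReal_mul]
  generalize ((2 * Real.pi / T.q d : ℝ) : ℂ) ^ (s + 1 / 2) = P at hne ⊢
  generalize ((Real.sqrt n : ℝ) : ℂ) = R at hsq ⊢
  generalize (n : ℂ) ^ (-s) = N
  field_simp

lemma ell_conj {d : ℤ} (hd : Squarefree d) (s : ℂ) : T.ell d (conj s) = conj (T.ell d s) := by
  have hq := q_pos T hd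
  have hpi := Real.pi_pos
  rw [ell_eq, ell_eq, map_mul, map_mul, map_inv₀, ← Complex.Gamma_conj]
  have e1 : conj (s + 1 / 2) = conj s + 1 / 2 := by
    rw [map_add]; congr 1
    rw [show (1 / 2 : ℂ) = ((1 / 2 : ℝ) : ℂ) by push_cast; rfl, Complex.conj_ofReal]
  have e2 : conj ((2 * Real.pi / (T.q d : ℂ)) ^ (s + 1 / 2)) =
      (2 * Real.pi / (T.q d : ℂ)) ^ (conj s + 1 / 2) := by
    rw [q_cast, ← e1, Complex.cpow_conj, Complex.conj_ofReal]
    rw [Complex.arg_ofReal_of_nonneg (by positivity)]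
    exact hpi.ne
  have e3 : conj (MM T d 0 (s + 1 / 2)) = MM T d 0 (conj s + 1 / 2) := by
    rw [mm_zero, mm_zero]
    unfold mellin
    rw [← integral_conj]
    refine setIntegral_congr_fun measurableSet_Ioi fun u (hu : 0 < u) => ?_
    simp only [smul_eq_mul, map_mul]
    have e4 : conj (T.F d u) = T.F d u := by
      unfold Twists.F
      rw [← gf_conj, map_div₀, Complex.conj_ofReal, Complex.conj_ofReal]
    have e5 : conj ((u : ℂ) ^ (s + 1 / 2 - 1)) = (u : ℂ) ^ (conj s + 1 / 2 - 1) := by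
      have : conj s + 1 / 2 - 1 = conj (s + 1 / 2 - 1) := by
        rw [map_sub, e1, map_one]
      rw [this, Complex.cpow_conj, Complex.conj_ofReal]
      rw [Complex.arg_ofReal_of_nonneg hu.le]
      exact hpi.ne
    rw [e4, e5]
  rw [e1, e2, e3]

/-- rotation by the angle of the sign of the imaginary part -/
lemma mm_norm_abs {d : ℤ} (hd : Squarefree d) {θ : ℝ} (h0 : 0 ≤ θ) (h1 : θ < Real.pi / 2) (s : ℂ) :
    ‖MM T d 0 s‖ ≤ Real.exp (-(θ * |s.im|)) * (if 0 ≤ s.im then ‖MM T d θ s‖ else ‖MM T d (-θ) s‖) := by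
  split_ifs with h
  · rw [abs_of_nonneg h]
    exact (mm_norm T hd (by rwa [abs_of_nonneg h0]) s).le
  · have h' : s.im ≤ 0 := (not_le.1 h).le
    rw [abs_of_nonpos h']
    have := mm_norm T hd (θ := -θ) (by rwa [abs_neg, abs_of_nonneg h0]) s
    rw [this]
    apply le_of_eq
    ring_nf

lemma Kd_neg (d : ℤ) (θ : ℝ) : Kd T d (-θ) = Kd T d θ := by
  unfold Kd x0
  rw [Real.cos_neg]

lemma x0_neg (d : ℤ) (θ : ℝ) : x0 T d (-θ) = x0 T d θ := by
  unfold x0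
  rw [Real.cos_neg]

/-- T8a -/
theorem T8a (d : ℤ) (hd : Squarefree d) :
    Differentiable ℂ (T.ell d) ∧
    (∀ s : ℂ, 2 < s.re → T.ell d s = ∑' n : ℕ, (T.cf d n : ℂ) * (n : ℂ) ^ (-s)) ∧
    (∀ s : ℂ, T.ell d (conj s) = conj (T.ell d s)) ∧
    ∃ C : ℝ, ∀ s : ℂ, 1 / 4 ≤ s.re → s.re ≤ 3 →
      ‖T.ell d s‖ ≤ C * Real.exp (Real.pi / 32 * |s.im|) := by
  refine ⟨ell_diff T hd, fun s hs => ell_dir T hd hs, ell_conj T hd, ?_⟩
  obtain ⟨c, hc, hg⟩ := gamma_low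
  have hq := q_pos T hd
  have hpi := Real.pi_pos
  set θ : ℝ := th1 with hθ
  have h0 : 0 ≤ θ := by rw [hθ]; unfold th1; positivity
  have h1 : θ < Real.pi / 2 := by rw [hθ]; unfold th1; linarith
  have ha : |θ| < Real.pi / 2 := by rwa [abs_of_nonneg h0]
  have ha' : |(-θ)| < Real.pi / 2 := by rwa [abs_neg]
  set B := 2 * Kd T d θ * cB (Real.pi * x0 T d θ) 3 with hB
  set P := max 1 (2 * Real.pi / T.q d) with hP
  have hP1 : 1 ≤ P := le_max_left _ _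
  refine ⟨P ^ (4 : ℝ) * c⁻¹ * B, fun s hs1 hs2 => ?_⟩
  have hre : (s + 1 / 2).re = s.re + 1 / 2 := by simp
  have him : (s + 1 / 2).im = s.im := by simp
  have hM : ‖MM T d 0 (s + 1 / 2)‖ ≤ Real.exp (-(θ * |s.im|)) * B := by
    have h := mm_norm_abs T hd h0 h1 (s + 1 / 2)
    rw [him] at h
    refine h.trans ?_
    have hN : |(s + 1 / 2).re - 1| ≤ ((3 : ℕ) : ℝ) := by
      rw [hre, abs_le]; constructor <;> push_cast <;> linarith
    have b1 := ((F_dec T hd ha).conv_norm 3 hN).2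
    have b2 := ((F_dec T hd ha').conv_norm 3 hN).2
    rw [Kd_neg, x0_neg] at b2
    gcongr
    split_ifs
    · exact b1
    · exact b2
  have hG := hg (s + 1 / 2) (by rw [hre]; linarith) (by rw [hre]; linarith)
  rw [him] at hG
  have hG' : ‖Complex.Gamma (s + 1 / 2)‖⁻¹ ≤ c⁻¹ * Real.exp (Real.pi / 2 * |s.im|) := by
    have : c⁻¹ * Real.exp (Real.pi / 2 * |s.im|) = (c * Real.exp (-(Real.pi / 2 * |s.im|)))⁻¹ := by
      rw [mul_inv, Real.exp_neg, inv_inv]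
    rw [this]
    exact inv_anti₀ (by positivity) hG
  have hpow : ‖(2 * Real.pi / (T.q d : ℂ)) ^ (s + 1 / 2)‖ ≤ P ^ (4 : ℝ) := by
    rw [q_cast, Complex.norm_cpow_eq_rpow_re_of_pos (by positivity), hre]
    calc (2 * Real.pi / T.q d) ^ (s.re + 1 / 2) ≤ P ^ (s.re + 1 / 2) :=
          Real.rpow_le_rpow (by positivity) (le_max_right _ _) (by linarith)
      _ ≤ P ^ (4 : ℝ) := Real.rpow_le_rpow_of_exponent_le hP1 (by linarith)
  rw [ell_eq, norm_mul, norm_mul, norm_inv]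
  have hB0 : 0 ≤ Real.exp (-(θ * |s.im|)) * B := (norm_nonneg _).trans hM
  calc ‖(2 * Real.pi / (T.q d : ℂ)) ^ (s + 1 / 2)‖ * ‖Complex.Gamma (s + 1 / 2)‖⁻¹ *
        ‖MM T d 0 (s + 1 / 2)‖
      ≤ P ^ (4 : ℝ) * (c⁻¹ * Real.exp (Real.pi / 2 * |s.im|)) * (Real.exp (-(θ * |s.im|)) * B) := by
        gcongr
    _ = P ^ (4 : ℝ) * c⁻¹ * B * (Real.exp (Real.pi / 2 * |s.im|) * Real.exp (-(θ * |s.im|))) := by
        ring
    _ = P ^ (4 : ℝ) * c⁻¹ * B * Real.exp (Real.pi / 32 * |s.im|) := by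
        rw [← Real.exp_add]
        congr 2
        rw [hθ]; unfold th1; ring

/-- T8d: trivial pointwise bound -/
theorem T8d : ∃ (C : ℝ) (A : ℕ), 0 < C ∧ ∀ (d : ℤ) (s : ℂ), Squarefree d → ‖s‖ ≤ 6 →
      ‖T.ell d s‖ ≤ C * |(d : ℝ)| ^ A := by
  have hpi := Real.pi_gt_three
  have hc := T.one_le_c
  have hcont : ContinuousOn (fun s : ℂ => (Complex.Gamma (s + 1 / 2))⁻¹) (Metric.closedBall 0 6) :=
    (Complex.differentiable_one_div_Gamma.comp
      (show Differentiable ℂ fun s : ℂ => s + 1 / 2 by fun_prop)).continuous.continuousOn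
  obtain ⟨CG, hCG⟩ := (isCompact_closedBall (0 : ℂ) 6).exists_bound_of_continuousOn hcont
  have hCG0 : 0 ≤ CG := (norm_nonneg _).trans (hCG 0 (by simp))
  set C1 : ℝ := (2 * Real.pi * T.c) ^ 7 * CG * (2 * (T.c * 2) * ((9 : ℕ).factorial)) with hC1
  have hC10 : 0 ≤ C1 := by positivity
  refine ⟨(C1 + 1) * T.c ^ 19, 19, by positivity, fun d s hd hs => ?_⟩
  have h0 : |(0 : ℝ)| < Real.pi / 2 := by rw [abs_zero]; positivity
  have hq := q_pos T hd
  have hd1 := one_le_abs hd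
  set D := T.c * |(d : ℝ)| with hD
  have hD1 : 1 ≤ D := by nlinarith
  have hqD : T.q d ≤ D := T.q_upper d hd
  have hqc : (T.q d)⁻¹ ≤ T.c := by
    have := q_low T hd
    rw [inv_le_comm₀ hq (by linarith)]; exact this
  have hre : (s + 1 / 2).re = s.re + 1 / 2 := by simp
  have hsre : |s.re| ≤ 6 := (Complex.abs_re_le_norm s).trans hs
  obtain ⟨hs1, hs2⟩ := abs_le.1 hsre
  have hN : |(s + 1 / 2).re - 1| ≤ ((7 : ℕ) : ℝ) := by
    rw [hre, abs_le]; constructor <;> push_cast <;> linarith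
  have hx0 : x0 T d 0 = (T.q d)⁻¹ := by unfold x0; rw [Real.cos_zero, one_div]
  have hM : ‖MM T d 0 (s + 1 / 2)‖ ≤ 2 * (T.c * 2) * ((9 : ℕ).factorial) * D ^ 12 := by
    refine ((F_dec T hd h0).conv_norm 7 hN).2.trans ?_
    unfold Kd cB
    rw [hx0, inv_inv]
    have e1 : T.q d ^ 2 + T.q d ^ 3 ≤ 2 * D ^ 3 := by
      have : T.q d ^ 2 ≤ D ^ 2 := by gcongr
      have : T.q d ^ 3 ≤ D ^ 3 := by gcongr
      have : D ^ 2 ≤ D ^ 3 := pow_le_pow_right₀ hD1 (by norm_num)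
      linarith
    have e2 : (Real.pi * (T.q d)⁻¹)⁻¹ ≤ D := by
      rw [mul_inv, inv_inv]
      have : Real.pi⁻¹ ≤ 1 := inv_le_one_of_one_le₀ (by linarith)
      calc Real.pi⁻¹ * T.q d ≤ 1 * D := by gcongr
        _ = D := one_mul D
    calc 2 * (T.c * (T.q d ^ 2 + T.q d ^ 3)) * (((7 + 2).factorial : ℕ) * (Real.pi * (T.q d)⁻¹)⁻¹ ^ (7 + 2))
        ≤ 2 * (T.c * (2 * D ^ 3)) * (((7 + 2).factorial : ℕ) * D ^ (7 + 2)) := by gcongr
      _ = _ := by norm_num; ring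
  have hpow : ‖(2 * Real.pi / (T.q d : ℂ)) ^ (s + 1 / 2)‖ ≤ (2 * Real.pi * T.c) ^ 7 * D ^ 7 := by
    rw [q_cast, Complex.norm_cpow_eq_rpow_re_of_pos (by positivity), hre]
    have hA1 : 1 ≤ 2 * Real.pi * T.c := by nlinarith
    rcases le_total 0 (s.re + 1 / 2) with h | h
    · calc (2 * Real.pi / T.q d) ^ (s.re + 1 / 2) ≤ (2 * Real.pi * T.c) ^ (s.re + 1 / 2) := by
            apply Real.rpow_le_rpow (by positivity) _ h
            rw [div_eq_mul_inv]; gcongr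
        _ ≤ (2 * Real.pi * T.c) ^ ((7 : ℕ) : ℝ) :=
            Real.rpow_le_rpow_of_exponent_le hA1 (by push_cast; linarith)
        _ = (2 * Real.pi * T.c) ^ 7 := Real.rpow_natCast _ _
        _ ≤ (2 * Real.pi * T.c) ^ 7 * D ^ 7 := le_mul_of_one_le_right (by positivity) (one_le_pow₀ hD1)
    · calc (2 * Real.pi / T.q d) ^ (s.re + 1 / 2) = ((2 * Real.pi / T.q d)⁻¹) ^ (-(s.re + 1 / 2)) := by
            rw [Real.inv_rpow (by positivity), Real.rpow_neg (by positivity), inv_inv]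
        _ ≤ D ^ (-(s.re + 1 / 2)) := by
            apply Real.rpow_le_rpow (by positivity) _ (by linarith)
            rw [inv_div, div_le_iff₀ (by positivity)]
            nlinarith
        _ ≤ D ^ ((7 : ℕ) : ℝ) :=
            Real.rpow_le_rpow_of_exponent_le hD1 (by push_cast; linarith)
        _ = D ^ 7 := Real.rpow_natCast _ _
        _ ≤ (2 * Real.pi * T.c) ^ 7 * D ^ 7 := le_mul_of_one_le_left (by positivity) (one_le_pow₀ hA1)
  have hGm : ‖(Complex.Gamma (s + 1 / 2))⁻¹‖ ≤ CG := hCG s (by simpa using hs)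
  rw [ell_eq, norm_mul, norm_mul]
  calc ‖(2 * Real.pi / (T.q d : ℂ)) ^ (s + 1 / 2)‖ * ‖(Complex.Gamma (s + 1 / 2))⁻¹‖ *
        ‖MM T d 0 (s + 1 / 2)‖
      ≤ (2 * Real.pi * T.c) ^ 7 * D ^ 7 * CG * (2 * (T.c * 2) * ((9 : ℕ).factorial) * D ^ 12) := by
        gcongr
    _ = C1 * D ^ 19 := by rw [hC1]; ring
    _ ≤ (C1 + 1) * D ^ 19 := by gcongr; linarith
    _ = _ := by rw [hD]; ring

end Pool.Agent.Y703.QT8
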