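import Pool.Agent.Y703.QT8.A

/-! QT-T8, part 5: `T8b`, `T8c`. -/

set_option autoImplicit false

namespace Pool.Agent.Y703.QT8

open Complex MeasureTheory Filter Topology Set
open Pool.Agent.Y19.QT
open Pool.Agent.H306R2.RZ (js Gk)
open scoped ENNReal ComplexConjugate

variable {Q : ℕ} {lam : ℕ → ℝ} (T : Twists Q lam)

lemma inv_image : (fun v : ℝ => v⁻¹) '' Ioi 1 = Ioo 0 1 := by
  ext u
  constructor
  · rintro ⟨v, hv, rfl⟩
    have hv' : (1 : ℝ) < v := hv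
    exact ⟨by positivity, inv_lt_one_of_one_lt₀ hv'⟩
  · rintro ⟨h1, h2⟩
    exact ⟨u⁻¹, (one_lt_inv₀ h1).2 h2, inv_inv u⟩

lemma F_low {d : ℤ} (hd : Squarefree d) {θ : ℝ} (hθ : |θ| < Real.pi / 2) (σ : ℝ) :
    ∫⁻ u in Ioo (0 : ℝ) 1, ‖T.F d (ray θ u)‖ₑ ^ 2 * ENNReal.ofReal (u ^ (2 * σ)) =
      ∫⁻ v in Ioi (1 : ℝ), ‖T.F d (ray θ v)‖ₑ ^ 2 * ENNReal.ofReal (v ^ (2 * (1 - σ))) := by
  rw [← inv_image, lintegral_image_eq_lintegral_abs_deriv_mul (f' := fun v : ℝ => -(v ^ 2)⁻¹)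
    measurableSet_Ioi (fun v hv => ?_) (fun a _ b _ hab => inv_injective hab)]
  · refine setLIntegral_congr_fun measurableSet_Ioi fun v hv => ?_
    have hv0 : (0 : ℝ) < v := lt_trans one_pos hv
    have h := F_ray_inv T hd hθ (u := v⁻¹) (by positivity)
    rw [inv_inv] at h
    have e1 : ‖T.F d (ray θ v⁻¹)‖ₑ = ENNReal.ofReal (v ^ 2) * ‖T.F d (ray θ v)‖ₑ := by
      rw [← ofReal_norm, h, ENNReal.ofReal_mul (by positivity), ofReal_norm]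
    rw [e1, mul_pow, ← ENNReal.ofReal_pow (by positivity), abs_neg, abs_of_nonneg (by positivity)]
    have e2 : v ^ (2 * (1 - σ)) = (v ^ 2)⁻¹ * (v ^ 2) ^ 2 * v⁻¹ ^ (2 * σ) := by
      rw [Real.inv_rpow hv0.le, ← Real.rpow_neg hv0.le]
      have : (v ^ 2)⁻¹ * (v ^ 2) ^ 2 = v ^ (2 : ℝ) := by
        rw [Real.rpow_two]; field_simp
      rw [this, ← Real.rpow_add hv0]
      congr 1; ring
    rw [e2, ENNReal.ofReal_mul (by positivity), ENNReal.ofReal_mul (by positivity)]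
    ring
  · have hv0 : (0 : ℝ) < v := lt_trans one_pos hv
    exact (hasDerivAt_inv hv0.ne').hasDerivWithinAt

lemma F_all {d : ℤ} (hd : Squarefree d) {θ : ℝ} (hθ : |θ| < Real.pi / 2) {σ σ' : ℝ}
    (h : |σ - 1 / 2| ≤ σ' - 1 / 2) :
    ∫⁻ u in Ioi (0 : ℝ), ‖T.F d (ray θ u)‖ₑ ^ 2 * ENNReal.ofReal (u ^ (2 * σ)) ≤
      2 * ∫⁻ v in Ioi (1 : ℝ), ‖T.F d (ray θ v)‖ₑ ^ 2 * ENNReal.ofReal (v ^ (2 * σ')) := by
  obtain ⟨h1, h2⟩ := abs_le.1 h
  rw [← Ioc_union_Ioi_eq_Ioi (zero_le_one (α := ℝ)), lintegral_union measurableSet_Ioi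
    (Ioc_disjoint_Ioi le_rfl), ← setLIntegral_congr Ioo_ae_eq_Ioc, F_low T hd hθ σ,
    two_mul (∫⁻ v in Ioi (1 : ℝ), ‖T.F d (ray θ v)‖ₑ ^ 2 * ENNReal.ofReal (v ^ (2 * σ')))]
  refine add_le_add ?_ ?_
  · refine setLIntegral_mono_ae' measurableSet_Ioi (Filter.Eventually.of_forall fun v hv => ?_)
    have hv1 : (1 : ℝ) < v := hv
    gcongr
    · exact hv1.le
    · linarith
  · refine setLIntegral_mono_ae' measurableSet_Ioi (Filter.Eventually.of_forall fun v hv => ?_)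
    have hv1 : (1 : ℝ) < v := hv
    gcongr
    · exact hv1.le
    · linarith

lemma mul_image {q : ℝ} (hq : 0 < q) : (fun u : ℝ => q * u) '' Ioi q⁻¹ = Ioi 1 := by
  ext v
  constructor
  · rintro ⟨u, hu, rfl⟩
    have hu' : q⁻¹ < u := hu
    show 1 < q * u
    rw [inv_lt_iff_one_lt_mul₀ hq] at hu'
    linarith
  · intro hv
    have hv' : 1 < v := hv
    refine ⟨q⁻¹ * v, ?_, mul_inv_cancel_left₀ hq.ne' v⟩
    show q⁻¹ < q⁻¹ * v
    exact lt_mul_of_one_lt_right (by positivity) hv'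

lemma F_scale {d : ℤ} (hd : Squarefree d) (θ σ' : ℝ) :
    ∫⁻ v in Ioi (1 : ℝ), ‖T.F d (ray θ v)‖ₑ ^ 2 * ENNReal.ofReal (v ^ (2 * σ')) =
      ENNReal.ofReal (T.q d ^ (2 * σ' + 1)) * NN σ' θ (T.q d)⁻¹ (T.Gf d) := by
  have hq := q_pos T hd
  rw [← mul_image hq, lintegral_image_eq_lintegral_abs_deriv_mul (f' := fun _ : ℝ => T.q d)
    measurableSet_Ioi (fun u _ => ?_) (fun a _ b _ hab => mul_left_cancel₀ hq.ne' hab)]
  · unfold NN
    rw [← lintegral_const_mul' _ _ ENNReal.ofReal_ne_top]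
    refine setLIntegral_congr_fun measurableSet_Ioi fun u hu => ?_
    have hu0 : (0 : ℝ) < u := lt_trans (inv_pos.2 hq) hu
    have e1 : T.F d (ray θ (T.q d * u)) = T.Gf d (ray θ u) := by
      unfold Twists.F ray
      have hqC : (T.q d : ℂ) ≠ 0 := by exact_mod_cast hq.ne'
      congr 1
      push_cast
      field_simp
    rw [e1, abs_of_pos hq, Real.mul_rpow hq.le hu0.le, Real.rpow_add hq, Real.rpow_one,
      ENNReal.ofReal_mul (by positivity), ENNReal.ofReal_mul (by positivity)]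
    ring
  · have h := (hasDerivAt_id u).const_mul (T.q d)
    rw [mul_one] at h
    exact h.hasDerivWithinAt

/-- T8b -/
theorem T8b (θ : ℝ) (h0 : 0 < θ) (h1 : θ < Real.pi / 2) :
    ∃ C : ℝ, 0 < C ∧ ∀ (d : ℤ) (σ σ' : ℝ), Squarefree d → 0 ≤ σ → σ ≤ 1 → σ' ≤ 1 →
      |σ - 1 / 2| ≤ σ' - 1 / 2 →
      ∫⁻ y : ℝ, ‖T.ell d (σ + y * I)‖ₑ ^ 2 *
          ENNReal.ofReal (Real.exp (-((Real.pi - 2 * θ) * |y|))) ≤
        ENNReal.ofReal (C * |(d : ℝ)| ^ (2 * (σ' - σ))) * NN σ' θ (T.q d)⁻¹ (T.Gf d) := by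
  obtain ⟨c, hc, hg⟩ := gamma_low
  have hpi := Real.pi_gt_three
  have hTc := T.one_le_c
  refine ⟨c⁻¹ ^ 2 * 4 * (2 * Real.pi) * (2 * Real.pi) ^ 3 * T.c ^ 2, by positivity,
    fun d σ σ' hd hσ0 hσ1 hσ'1 hσσ => ?_⟩
  obtain ⟨k1, k2⟩ := abs_le.1 hσσ
  have ha : |θ| < Real.pi / 2 := by rwa [abs_of_pos h0]
  have ha' : |(-θ)| < Real.pi / 2 := by rwa [abs_neg]
  have hq := q_pos T hd
  have hd1 := one_le_abs hd
  set x : ℝ := σ + 1 / 2 with hx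
  have hpt : ∀ y : ℝ, ‖T.ell d (σ + y * I)‖ₑ ^ 2 *
      ENNReal.ofReal (Real.exp (-((Real.pi - 2 * θ) * |y|))) ≤
      ENNReal.ofReal (c⁻¹ ^ 2 * (2 * Real.pi / T.q d) ^ (2 * σ + 1)) *
        (‖MM T d θ (x + y * I)‖ₑ ^ 2 + ‖MM T d (-θ) (x + y * I)‖ₑ ^ 2) := by
    intro y
    have es : (σ : ℂ) + y * I + 1 / 2 = (x : ℂ) + y * I := by rw [hx]; push_cast; ring
    have hre : ((x : ℂ) + y * I).re = x := by simp
    have him : ((x : ℂ) + y * I).im = y := by simp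
    have hG := hg ((x : ℂ) + y * I) (by rw [hre, hx]; linarith) (by rw [hre, hx]; linarith)
    rw [him] at hG
    have hG' : ‖Complex.Gamma ((x : ℂ) + y * I)‖⁻¹ ≤ c⁻¹ * Real.exp (Real.pi / 2 * |y|) := by
      have : c⁻¹ * Real.exp (Real.pi / 2 * |y|) = (c * Real.exp (-(Real.pi / 2 * |y|)))⁻¹ := by
        rw [mul_inv, Real.exp_neg, inv_inv]
      rw [this]
      exact inv_anti₀ (by positivity) hG
    have hM := mm_norm_abs T hd h0.le h1 ((x : ℂ) + y * I)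
    rw [him] at hM
    set m1 := ‖MM T d θ (x + y * I)‖ with hm1
    set m2 := ‖MM T d (-θ) (x + y * I)‖ with hm2
    have hM2 : ‖MM T d 0 (x + y * I)‖ ^ 2 ≤ Real.exp (-(2 * θ * |y|)) * (m1 ^ 2 + m2 ^ 2) := by
      have e : Real.exp (-(2 * θ * |y|)) = Real.exp (-(θ * |y|)) ^ 2 := by
        rw [← Real.exp_nat_mul]; congr 1; push_cast; ring
      have h3 : (if 0 ≤ y then m1 else m2) ^ 2 ≤ m1 ^ 2 + m2 ^ 2 := by
        split_ifs
        · have := sq_nonneg m2; linarith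
        · have := sq_nonneg m1; linarith
      calc ‖MM T d 0 (x + y * I)‖ ^ 2 ≤ (Real.exp (-(θ * |y|)) * (if 0 ≤ y then m1 else m2)) ^ 2 := by
            gcongr
        _ = Real.exp (-(θ * |y|)) ^ 2 * (if 0 ≤ y then m1 else m2) ^ 2 := by rw [mul_pow]
        _ ≤ _ := by rw [e]; gcongr
    have hE : ‖T.ell d (σ + y * I)‖ ^ 2 * Real.exp (-((Real.pi - 2 * θ) * |y|)) ≤
        c⁻¹ ^ 2 * (2 * Real.pi / T.q d) ^ (2 * σ + 1) * (m1 ^ 2 + m2 ^ 2) := by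
      rw [ell_eq, es, norm_mul, norm_mul, norm_inv, q_cast,
        Complex.norm_cpow_eq_rpow_re_of_pos (by positivity), hre, mul_pow, mul_pow]
      have e1 : ((2 * Real.pi / T.q d) ^ x) ^ 2 = (2 * Real.pi / T.q d) ^ (2 * σ + 1) := by
        rw [← Real.rpow_natCast, ← Real.rpow_mul (by positivity)]
        congr 1; rw [hx]; push_cast; ring
      rw [e1]
      calc (2 * Real.pi / T.q d) ^ (2 * σ + 1) * ‖Complex.Gamma ((x : ℂ) + y * I)‖⁻¹ ^ 2 *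
            ‖MM T d 0 (x + y * I)‖ ^ 2 * Real.exp (-((Real.pi - 2 * θ) * |y|))
          ≤ (2 * Real.pi / T.q d) ^ (2 * σ + 1) * (c⁻¹ * Real.exp (Real.pi / 2 * |y|)) ^ 2 *
            (Real.exp (-(2 * θ * |y|)) * (m1 ^ 2 + m2 ^ 2)) *
            Real.exp (-((Real.pi - 2 * θ) * |y|)) := by gcongr
        _ = c⁻¹ ^ 2 * (2 * Real.pi / T.q d) ^ (2 * σ + 1) * (m1 ^ 2 + m2 ^ 2) *
            (Real.exp (Real.pi / 2 * |y|) * Real.exp (Real.pi / 2 * |y|) *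
              Real.exp (-(2 * θ * |y|)) * Real.exp (-((Real.pi - 2 * θ) * |y|))) := by ring
        _ = _ := by
            rw [← Real.exp_add, ← Real.exp_add, ← Real.exp_add]
            have : Real.pi / 2 * |y| + Real.pi / 2 * |y| + -(2 * θ * |y|) +
              -((Real.pi - 2 * θ) * |y|) = 0 := by ring
            rw [this, Real.exp_zero, mul_one]
    rw [← ofReal_norm, ← ofReal_norm, ← ofReal_norm, ← ENNReal.ofReal_pow (norm_nonneg _),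
      ← ENNReal.ofReal_pow (norm_nonneg _), ← ENNReal.ofReal_pow (norm_nonneg _),
      ← ENNReal.ofReal_mul (by positivity), ← ENNReal.ofReal_add (by positivity) (by positivity),
      ← ENNReal.ofReal_mul (by positivity)]
    exact ENNReal.ofReal_le_ofReal hE
  have hmeas : ∀ θ' : ℝ, |θ'| < Real.pi / 2 →
      Measurable fun y : ℝ => ‖MM T d θ' (x + y * I)‖ₑ ^ 2 := by
    intro θ' hθ'
    have h := (mm_diff T hd hθ').continuous
    have h2 : Continuous fun y : ℝ => MM T d θ' (x + y * I) := h.comp (by fun_prop)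
    exact (h2.enorm.measurable).pow_const 2
  have hpl : ∀ θ' : ℝ, |θ'| < Real.pi / 2 →
      (∀ u : ℝ, ‖T.F d (ray θ' u)‖ₑ = ‖T.F d (ray θ u)‖ₑ) →
      ∫⁻ y : ℝ, ‖MM T d θ' (x + y * I)‖ₑ ^ 2 ≤
      ENNReal.ofReal (2 * Real.pi) * (2 * (ENNReal.ofReal (T.q d ^ (2 * σ' + 1)) *
        NN σ' θ (T.q d)⁻¹ (T.Gf d))) := by
    intro θ' hθ' hθθ
    have h := (F_dec T hd hθ').planch x
    unfold MM
    rw [h]
    gcongr
    rw [← F_scale T hd]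
    have e : 2 * x - 1 = 2 * σ := by rw [hx]; ring
    rw [e]
    simp_rw [hθθ]
    exact F_all T hd ha hσσ
  have h5 := hpl θ ha (fun _ => rfl)
  have h6 := hpl (-θ) ha' (fun u => by
    rw [← ofReal_norm, ← ofReal_norm, F_ray_neg_norm])
  calc _ ≤ ∫⁻ y : ℝ, ENNReal.ofReal (c⁻¹ ^ 2 * (2 * Real.pi / T.q d) ^ (2 * σ + 1)) *
        (‖MM T d θ (x + y * I)‖ₑ ^ 2 + ‖MM T d (-θ) (x + y * I)‖ₑ ^ 2) := lintegral_mono hpt
    _ = ENNReal.ofReal (c⁻¹ ^ 2 * (2 * Real.pi / T.q d) ^ (2 * σ + 1)) *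
        ((∫⁻ y : ℝ, ‖MM T d θ (x + y * I)‖ₑ ^ 2) + ∫⁻ y : ℝ, ‖MM T d (-θ) (x + y * I)‖ₑ ^ 2) := by
        rw [lintegral_const_mul' _ _ ENNReal.ofReal_ne_top, lintegral_add_left (hmeas θ ha)]
    _ ≤ ENNReal.ofReal (c⁻¹ ^ 2 * (2 * Real.pi / T.q d) ^ (2 * σ + 1)) *
        (ENNReal.ofReal (2 * Real.pi) * (2 * (ENNReal.ofReal (T.q d ^ (2 * σ' + 1)) *
        NN σ' θ (T.q d)⁻¹ (T.Gf d))) + ENNReal.ofReal (2 * Real.pi) * (2 * (ENNReal.ofReal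
        (T.q d ^ (2 * σ' + 1)) * NN σ' θ (T.q d)⁻¹ (T.Gf d)))) := by gcongr
    _ = ENNReal.ofReal (c⁻¹ ^ 2 * (2 * Real.pi / T.q d) ^ (2 * σ + 1) * (2 * Real.pi) * 4 *
        T.q d ^ (2 * σ' + 1)) * NN σ' θ (T.q d)⁻¹ (T.Gf d) := by
        have g1 : 0 ≤ c⁻¹ ^ 2 * (2 * Real.pi / T.q d) ^ (2 * σ + 1) := by positivity
        have g2 : 0 ≤ 2 * Real.pi := by positivity
        generalize c⁻¹ ^ 2 * (2 * Real.pi / T.q d) ^ (2 * σ + 1) = A at g1 ⊢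
        rw [ENNReal.ofReal_mul (p := A * (2 * Real.pi) * 4) (by positivity),
          ENNReal.ofReal_mul (p := A * (2 * Real.pi)) (by positivity),
          ENNReal.ofReal_mul (p := A) g1, show ENNReal.ofReal 4 = 4 by norm_num]
        ring
    _ ≤ _ := by
        gcongr ENNReal.ofReal ?_ * _
        have e1 : (2 * Real.pi / T.q d) ^ (2 * σ + 1) * T.q d ^ (2 * σ' + 1) =
            (2 * Real.pi) ^ (2 * σ + 1) * T.q d ^ (2 * (σ' - σ)) := by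
          have h8 : T.q d ^ (2 * σ' + 1) = T.q d ^ (2 * (σ' - σ)) * T.q d ^ (2 * σ + 1) := by
            rw [← Real.rpow_add hq]; congr 1; ring
          rw [Real.div_rpow (by positivity) hq.le, h8]
          have h7 : T.q d ^ (2 * σ + 1) ≠ 0 := (Real.rpow_pos_of_pos hq _).ne'
          generalize T.q d ^ (2 * σ + 1) = A at h7 ⊢
          generalize T.q d ^ (2 * (σ' - σ)) = B
          field_simp
        have e2 : (2 * Real.pi) ^ (2 * σ + 1) ≤ (2 * Real.pi) ^ 3 := by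
          rw [← Real.rpow_natCast (2 * Real.pi) 3]
          exact Real.rpow_le_rpow_of_exponent_le (by linarith) (by push_cast; linarith)
        have e3 : T.q d ^ (2 * (σ' - σ)) ≤ T.c ^ 2 * |(d : ℝ)| ^ (2 * (σ' - σ)) := by
          calc T.q d ^ (2 * (σ' - σ)) ≤ (T.c * |(d : ℝ)|) ^ (2 * (σ' - σ)) :=
                Real.rpow_le_rpow hq.le (T.q_upper d hd) (by linarith)
            _ = T.c ^ (2 * (σ' - σ)) * |(d : ℝ)| ^ (2 * (σ' - σ)) :=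
                Real.mul_rpow (by positivity) (by positivity)
            _ ≤ T.c ^ 2 * |(d : ℝ)| ^ (2 * (σ' - σ)) := by
                gcongr
                rw [← Real.rpow_natCast T.c 2]
                exact Real.rpow_le_rpow_of_exponent_le hTc (by push_cast; linarith)
        calc c⁻¹ ^ 2 * (2 * Real.pi / T.q d) ^ (2 * σ + 1) * (2 * Real.pi) * 4 * T.q d ^ (2 * σ' + 1)
            = c⁻¹ ^ 2 * 4 * (2 * Real.pi) * ((2 * Real.pi / T.q d) ^ (2 * σ + 1) *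
              T.q d ^ (2 * σ' + 1)) := by ring
          _ ≤ c⁻¹ ^ 2 * 4 * (2 * Real.pi) * ((2 * Real.pi) ^ 3 *
              (T.c ^ 2 * |(d : ℝ)| ^ (2 * (σ' - σ)))) := by rw [e1]; gcongr
          _ = _ := by ring

/-- T8c -/
theorem T8c (θ : ℝ) (h0 : 0 < θ) (h1 : θ < Real.pi / 2) :
    ∃ C : ℝ, 0 < C ∧ ∀ (d : ℤ) (σ : ℝ), Squarefree d → 1 / 2 ≤ σ → σ ≤ 1 →
      NN σ θ (T.q d)⁻¹ (T.Gf d) ≤ ENNReal.ofReal (C * |(d : ℝ)| ^ 6) := by
  have hTc := T.one_le_c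
  have hcos : 0 < Real.cos θ := Real.cos_pos_of_mem_Ioo ⟨by linarith [Real.pi_pos], h1⟩
  have hcos1 : Real.cos θ ≤ 1 := Real.cos_le_one θ
  set κ := (Real.cos θ)⁻¹ with hκ
  have hκ1 : 1 ≤ κ := (one_le_inv₀ hcos).2 hcos1
  refine ⟨(T.c * (2 * κ ^ 3)) ^ 2 * T.c ^ 4, by positivity, fun d σ hd hσ1 hσ2 => ?_⟩
  have hq := q_pos T hd
  have hd1 := one_le_abs hd
  set D := T.c * |(d : ℝ)| with hD
  have hD1 : 1 ≤ D := by nlinarith
  have hqD : T.q d ≤ D := T.q_upper d hd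
  have hpt : ∀ u ∈ Ioi (T.q d)⁻¹, ‖T.Gf d (ray θ u)‖ₑ ^ 2 * ENNReal.ofReal (u ^ (2 * σ)) ≤
      ENNReal.ofReal ((T.c * (2 * κ ^ 3) * D) ^ 2 * u ^ (2 * σ - 4)) := by
    intro u (hu : (T.q d)⁻¹ < u)
    have hu0 : 0 < u := lt_trans (inv_pos.2 hq) hu
    have hw : 0 < (ray θ u).re := by rw [ray_re]; positivity
    have h := gf_bound T d hd hw
    rw [ray_re] at h
    have h2 : (u * Real.cos θ)⁻¹ = u⁻¹ * κ := by rw [mul_inv]
    have h3 : u⁻¹ ≤ D := by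
      refine le_trans ?_ hqD
      rw [inv_le_comm₀ hu0 hq]; exact hu.le
    have hb : ‖T.Gf d (ray θ u)‖ ≤ T.c * (2 * κ ^ 3) * D * u⁻¹ ^ 2 := by
      refine h.trans ?_
      rw [h2]
      have e1 : Real.exp (-(Real.pi * (u * Real.cos θ))) ≤ 1 := by
        rw [Real.exp_le_one_iff]
        have : 0 < Real.pi * (u * Real.cos θ) := by positivity
        linarith
      have e2 : (u⁻¹ * κ) ^ 2 ≤ κ ^ 3 * D * u⁻¹ ^ 2 := by
        have : κ ^ 2 ≤ κ ^ 3 := pow_le_pow_right₀ hκ1 (by norm_num)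
        calc (u⁻¹ * κ) ^ 2 = κ ^ 2 * 1 * u⁻¹ ^ 2 := by ring
          _ ≤ κ ^ 3 * D * u⁻¹ ^ 2 := by gcongr
      have e3 : (u⁻¹ * κ) ^ 3 ≤ κ ^ 3 * D * u⁻¹ ^ 2 := by
        calc (u⁻¹ * κ) ^ 3 = κ ^ 3 * u⁻¹ * u⁻¹ ^ 2 := by ring
          _ ≤ κ ^ 3 * D * u⁻¹ ^ 2 := by gcongr
      calc T.c * (((u⁻¹ * κ) ^ 2 + (u⁻¹ * κ) ^ 3) * Real.exp (-(Real.pi * (u * Real.cos θ))))
          ≤ T.c * ((κ ^ 3 * D * u⁻¹ ^ 2 + κ ^ 3 * D * u⁻¹ ^ 2) * 1) := by gcongr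
        _ = _ := by ring
    rw [← ofReal_norm, ← ENNReal.ofReal_pow (norm_nonneg _), ← ENNReal.ofReal_mul (by positivity)]
    apply ENNReal.ofReal_le_ofReal
    have e4 : u ^ (2 * σ - 4) = (u⁻¹ ^ 2) ^ 2 * u ^ (2 * σ) := by
      rw [sub_eq_add_neg, Real.rpow_add hu0, Real.rpow_neg hu0.le, mul_comm]
      congr 1
      rw [show (4 : ℝ) = ((4 : ℕ) : ℝ) by norm_num, Real.rpow_natCast]
      field_simp
    calc ‖T.Gf d (ray θ u)‖ ^ 2 * u ^ (2 * σ)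
        ≤ (T.c * (2 * κ ^ 3) * D * u⁻¹ ^ 2) ^ 2 * u ^ (2 * σ) := by gcongr
      _ = _ := by rw [e4]; ring
  unfold NN
  have hint := integrableOn_Ioi_rpow_of_lt (a := 2 * σ - 4) (by linarith) (inv_pos.2 hq)
  calc _ ≤ ∫⁻ u in Ioi (T.q d)⁻¹, ENNReal.ofReal ((T.c * (2 * κ ^ 3) * D) ^ 2 * u ^ (2 * σ - 4)) :=
        setLIntegral_mono_ae' measurableSet_Ioi (Filter.Eventually.of_forall hpt)
    _ = ENNReal.ofReal (∫ u in Ioi (T.q d)⁻¹, (T.c * (2 * κ ^ 3) * D) ^ 2 * u ^ (2 * σ - 4)) := by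
        rw [ofReal_integral_eq_lintegral_ofReal (hint.const_mul _)]
        filter_upwards [ae_restrict_mem measurableSet_Ioi] with u hu
        have hu0 : 0 < u := lt_trans (inv_pos.2 hq) hu
        positivity
    _ ≤ _ := by
        apply ENNReal.ofReal_le_ofReal
        rw [integral_const_mul, integral_Ioi_rpow_of_lt (by linarith) (inv_pos.2 hq)]
        have e5 : -(T.q d)⁻¹ ^ (2 * σ - 4 + 1) / (2 * σ - 4 + 1) ≤ D ^ 2 := by
          have e6 : (T.q d)⁻¹ ^ (2 * σ - 4 + 1) = T.q d ^ (3 - 2 * σ) := by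
            rw [Real.inv_rpow hq.le, ← Real.rpow_neg hq.le]; congr 1; ring
          rw [e6, neg_div, ← div_neg, div_le_iff₀ (by linarith)]
          have e7 : T.q d ^ (3 - 2 * σ) ≤ D ^ 2 := by
            calc T.q d ^ (3 - 2 * σ) ≤ D ^ (3 - 2 * σ) := Real.rpow_le_rpow hq.le hqD (by linarith)
              _ ≤ D ^ ((2 : ℕ) : ℝ) := Real.rpow_le_rpow_of_exponent_le hD1 (by push_cast; linarith)
              _ = D ^ 2 := Real.rpow_natCast _ _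
          refine e7.trans (le_mul_of_one_le_right (by positivity) (by linarith))
        calc (T.c * (2 * κ ^ 3) * D) ^ 2 * (-(T.q d)⁻¹ ^ (2 * σ - 4 + 1) / (2 * σ - 4 + 1))
            ≤ (T.c * (2 * κ ^ 3) * D) ^ 2 * D ^ 2 := by gcongr
          _ = (T.c * (2 * κ ^ 3)) ^ 2 * T.c ^ 4 * |(d : ℝ)| ^ 4 := by rw [hD]; ring
          _ ≤ _ := by
            gcongr ?_ * ?_
            exact pow_le_pow_right₀ hd1 (by norm_num)

end Pool.Agent.Y703.QT8
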