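import Pool.Agent.Y19.QT.Defs

/-! QT-T8, part 1: bounds for the coefficients and for the theta functions. -/

set_option autoImplicit false

namespace Pool.Agent.Y703.QT8

open Complex MeasureTheory Filter Topology Set
open Pool.Agent.Y19.QT
open Pool.Agent.H306R2.RZ (js Gk)
open scoped ENNReal ComplexConjugate

variable {Q : ℕ} {lam : ℕ → ℝ}

lemma js_abs_le (k : ℤ) (n : ℕ) : |js k n| ≤ 1 := by
  unfold js
  rcases jacobiSym.trichotomy k n with h | h | h <;> rw [h] <;> norm_num

lemma abs_sin_mul_le (θ : ℝ) (n : ℕ) : |Real.sin (n * θ)| ≤ n * |Real.sin θ| := by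
  induction n with
  | zero => simp
  | succ n ih =>
    have e : ((n + 1 : ℕ) : ℝ) * θ = n * θ + θ := by push_cast; ring
    rw [e, Real.sin_add]
    push_cast
    calc |Real.sin (n * θ) * Real.cos θ + Real.cos (n * θ) * Real.sin θ|
        ≤ |Real.sin (n * θ) * Real.cos θ| + |Real.cos (n * θ) * Real.sin θ| := abs_add_le _ _
      _ = |Real.sin (n * θ)| * |Real.cos θ| + |Real.cos (n * θ)| * |Real.sin θ| := by
          rw [abs_mul, abs_mul]
      _ ≤ n * |Real.sin θ| * 1 + 1 * |Real.sin θ| := by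
          have h1 := Real.abs_cos_le_one θ
          have h2 := Real.abs_cos_le_one (n * θ)
          gcongr
      _ = (n + 1) * |Real.sin θ| := by ring

lemma lam_pow (H : Hecke Q lam) (p k : ℕ) (hp : p.Prime) : |lam (p ^ k)| ≤ k + 1 := by
  by_cases hQ : p ∣ Q
  · rcases k with _ | k
    · simp [H.one]
    · rw [H.bad p k hp hQ]; simp; positivity
  · have hb := H.bound p hp
    obtain ⟨hb1, hb2⟩ := abs_le.1 hb
    set θ := Real.arccos (lam p / 2) with hθ
    have hc : Real.cos θ = lam p / 2 := Real.cos_arccos (by linarith) (by linarith)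
    have hlp : lam p = 2 * Real.cos θ := by linarith
    have hrec := fun k => H.hrec p k hp hQ
    have key : ∀ k : ℕ, lam (p ^ k) * Real.sin θ = Real.sin ((k + 1) * θ) ∧
        lam (p ^ (k + 1)) * Real.sin θ = Real.sin ((k + 2) * θ) := by
      intro k
      induction k with
      | zero =>
        simp only [pow_zero, H.one, zero_add, pow_one, Nat.cast_zero, one_mul]
        refine ⟨trivial, ?_⟩
        rw [hlp, Real.sin_two_mul]; ring
      | succ k ih =>
        obtain ⟨h1, h2⟩ := ih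
        refine ⟨by push_cast; rw [h2]; ring_nf, ?_⟩
        rw [show k + 1 + 1 = k + 2 by ring, hrec k, sub_mul, h1]
        have : lam p * lam (p ^ (k + 1)) * Real.sin θ = 2 * Real.cos θ * Real.sin ((k + 2) * θ) := by
          rw [mul_assoc, h2, hlp]
        rw [this]
        push_cast
        have e1 : ((k : ℝ) + 1 + 2) * θ = (k + 2) * θ + θ := by ring
        have e2 : ((k : ℝ) + 1) * θ = (k + 2) * θ - θ := by ring
        rw [e1, e2, Real.sin_add, Real.sin_sub]
        ring
    by_cases hs : Real.sin θ = 0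
    · have hc2 : Real.cos θ ^ 2 = 1 := by
        have := Real.sin_sq_add_cos_sq θ
        rw [hs] at this
        linarith
      have key2 : ∀ k : ℕ, lam (p ^ k) = Real.cos θ ^ k * (k + 1) ∧
          lam (p ^ (k + 1)) = Real.cos θ ^ (k + 1) * (k + 2) := by
        intro k
        induction k with
        | zero => simp [H.one, hlp]; ring
        | succ k ih =>
          obtain ⟨h1, h2⟩ := ih
          refine ⟨by push_cast; rw [h2]; ring, ?_⟩
          rw [show k + 1 + 1 = k + 2 by ring, hrec k, h1, h2, hlp]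
          push_cast
          have e : Real.cos θ ^ (k + 1) = Real.cos θ ^ k * Real.cos θ := pow_succ _ _
          have e' : Real.cos θ ^ (k + 2) = Real.cos θ ^ k := by
            rw [pow_add, hc2, mul_one]
          rw [e, e']
          have : 2 * Real.cos θ * (Real.cos θ ^ k * Real.cos θ * (k + 2)) =
              2 * Real.cos θ ^ k * (k + 2) * Real.cos θ ^ 2 := by ring
          rw [this, hc2]
          ring
      rw [(key2 k).1, abs_mul, abs_pow]
      have h1 : |Real.cos θ| ^ k ≤ 1 := pow_le_one₀ (abs_nonneg _) (Real.abs_cos_le_one θ)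
      have h2 : |((k : ℝ) + 1)| = k + 1 := abs_of_nonneg (by positivity)
      rw [h2]
      have : (0 : ℝ) ≤ k + 1 := by positivity
      nlinarith
    · have h1 := (key k).1
      have h2 := abs_sin_mul_le θ (k + 1)
      push_cast at h2
      rw [← h1, abs_mul] at h2
      exact le_of_mul_le_mul_right h2 (abs_pos.2 hs)

lemma lam_le_card (H : Hecke Q lam) (n : ℕ) : |lam n| ≤ (n.divisors.card : ℝ) := by
  induction n using Nat.recOnPosPrimePosCoprime with
  | zero => simp [H.zero]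
  | one => simp [H.one]
  | prime_pow p k hp hk =>
    rw [Nat.divisors_prime_pow hp, Finset.card_map, Finset.card_range]
    push_cast
    exact lam_pow H p k hp
  | coprime a b ha hb hab iha ihb =>
    rw [H.mul a b hab, abs_mul, Nat.Coprime.card_divisors_mul hab]
    push_cast
    exact mul_le_mul iha ihb (abs_nonneg _) (by positivity)

lemma lam_le (H : Hecke Q lam) (n : ℕ) : |lam n| ≤ n := by
  refine (lam_le_card H n).trans ?_
  exact_mod_cast Nat.card_divisors_le_self n

variable (T : Twists Q lam)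

lemma c_pos : 0 < T.c := lt_of_lt_of_le one_pos T.one_le_c

lemma cf_bound (d : ℤ) (hd : Squarefree d) (n : ℕ) : |T.cf d n| ≤ T.c * n := by
  rcases Nat.eq_zero_or_pos n with rfl | hn
  · simp [Twists.cf]
  obtain ⟨hs, hs'⟩ := T.e_sum d hd
  unfold Twists.cf
  calc |∑ x ∈ n.divisorsAntidiagonal, T.e d x.1 * (lam x.2 * js d x.2)|
      ≤ ∑ x ∈ n.divisorsAntidiagonal, |T.e d x.1 * (lam x.2 * js d x.2)| :=
        Finset.abs_sum_le_sum_abs _ _
    _ ≤ ∑ x ∈ n.divisorsAntidiagonal, (n : ℝ) * (|T.e d x.1| * (x.1 : ℝ) ^ (-(1 / 4) : ℝ)) := by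
        refine Finset.sum_le_sum fun x hx => ?_
        obtain ⟨hx1, hx2⟩ := Nat.mem_divisorsAntidiagonal.1 hx
        have hx1' : 0 < x.1 := Nat.pos_of_ne_zero fun h => by rw [h, zero_mul] at hx1; omega
        have ha : (1 : ℝ) ≤ x.1 := by exact_mod_cast hx1'
        have hn' : (n : ℝ) = x.1 * x.2 := by rw [← hx1]; push_cast; ring
        rw [abs_mul, abs_mul]
        have h1 : |lam x.2| * |js d x.2| ≤ x.2 := by
          calc |lam x.2| * |js d x.2| ≤ (x.2 : ℝ) * 1 :=
                mul_le_mul (lam_le T.hecke _) (js_abs_le _ _) (abs_nonneg _) (by positivity)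
            _ = x.2 := mul_one _
        have h2 : (1 : ℝ) ≤ x.1 * (x.1 : ℝ) ^ (-(1 / 4) : ℝ) := by
          rw [← Real.rpow_one_add' (by positivity) (by norm_num)]
          exact Real.one_le_rpow ha (by norm_num)
        calc |T.e d x.1| * (|lam x.2| * |js d x.2|) ≤ |T.e d x.1| * x.2 := by gcongr
          _ ≤ |T.e d x.1| * x.2 * (x.1 * (x.1 : ℝ) ^ (-(1 / 4) : ℝ)) :=
            le_mul_of_one_le_right (by positivity) h2
          _ = _ := by rw [hn']; ring
    _ = n * ∑ a ∈ n.divisors, (|T.e d a| * (a : ℝ) ^ (-(1 / 4) : ℝ)) := by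
        rw [← Finset.mul_sum, Nat.sum_divisorsAntidiagonal
          (fun a _ => |T.e d a| * (a : ℝ) ^ (-(1 / 4) : ℝ))]
    _ ≤ n * T.c := by
        gcongr
        exact (hs.sum_le_tsum _ (fun a _ => by positivity)).trans hs'
    _ = T.c * n := mul_comm _ _

lemma cf_zero (d : ℤ) : T.cf d 0 = 0 := by simp [Twists.cf]

/-- the majorant of the theta series -/
lemma theta_sum {x : ℝ} (hx : 0 < x) :
    Summable (fun n : ℕ => (n : ℝ) ^ 2 * Real.exp (-(2 * Real.pi * n * x))) ∧
    ∑' n : ℕ, (n : ℝ) ^ 2 * Real.exp (-(2 * Real.pi * n * x)) ≤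
      (x⁻¹ ^ 2 + x⁻¹ ^ 3) * Real.exp (-(Real.pi * x)) := by
  have hpi := Real.pi_gt_three
  set r := Real.exp (-(Real.pi * x)) with hr
  have hr0 : 0 < r := Real.exp_pos _
  have hr1 : r < 1 := by rw [hr, Real.exp_lt_one_iff]; nlinarith
  have hterm : ∀ n : ℕ, ((n + 1 : ℕ) : ℝ) ^ 2 * Real.exp (-(2 * Real.pi * (n + 1 : ℕ) * x)) ≤
      x⁻¹ ^ 2 * r * r ^ n := by
    intro n
    set t := Real.pi * ((n + 1 : ℕ) : ℝ) * x with ht
    have ht0 : 0 ≤ t := by positivity
    have h1 : t ^ 2 / 2 ≤ Real.exp t := by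
      have := Real.quadratic_le_exp_of_nonneg ht0
      linarith
    have h2 : ((n + 1 : ℕ) : ℝ) ^ 2 ≤ x⁻¹ ^ 2 * Real.exp t := by
      have h3 : ((n + 1 : ℕ) : ℝ) ^ 2 = x⁻¹ ^ 2 * (t ^ 2 / Real.pi ^ 2) := by
        rw [ht]; field_simp
      rw [h3]
      have h4 : t ^ 2 / Real.pi ^ 2 ≤ t ^ 2 / 2 := by
        have : (2 : ℝ) ≤ Real.pi ^ 2 := by nlinarith
        gcongr
      have : 0 < x⁻¹ ^ 2 := by positivity
      nlinarith
    have h5 : Real.exp (-(2 * Real.pi * (n + 1 : ℕ) * x)) = Real.exp (-t) * Real.exp (-t) := by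
      rw [← Real.exp_add, ht]; congr 1; ring
    have h6 : Real.exp (-t) = r * r ^ n := by
      rw [hr, ← Real.exp_nat_mul, ← Real.exp_add, ht]; congr 1; push_cast; ring
    calc _ ≤ x⁻¹ ^ 2 * Real.exp t * (Real.exp (-t) * Real.exp (-t)) := by
          rw [h5]; gcongr
      _ = x⁻¹ ^ 2 * (Real.exp t * Real.exp (-t)) * Real.exp (-t) := by ring
      _ = x⁻¹ ^ 2 * r * r ^ n := by rw [← Real.exp_add, add_neg_cancel, Real.exp_zero, h6]; ring
  have hg : Summable (fun n : ℕ => x⁻¹ ^ 2 * r * r ^ n) :=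
    (summable_geometric_of_lt_one hr0.le hr1).mul_left _
  have hs1 : Summable (fun n : ℕ => ((n + 1 : ℕ) : ℝ) ^ 2 *
      Real.exp (-(2 * Real.pi * (n + 1 : ℕ) * x))) :=
    Summable.of_nonneg_of_le (fun n => by positivity) hterm hg
  have hs : Summable (fun n : ℕ => (n : ℝ) ^ 2 * Real.exp (-(2 * Real.pi * n * x))) :=
    (summable_nat_add_iff 1).1 hs1
  refine ⟨hs, ?_⟩
  rw [hs.tsum_eq_zero_add]
  have e0 : ((0 : ℕ) : ℝ) ^ 2 * Real.exp (-(2 * Real.pi * ((0 : ℕ) : ℝ) * x)) = 0 := by simp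
  rw [e0, zero_add]
  calc _ ≤ ∑' n : ℕ, x⁻¹ ^ 2 * r * r ^ n := hs1.tsum_le_tsum hterm hg
    _ = x⁻¹ ^ 2 * r * (1 - r)⁻¹ := by rw [tsum_mul_left, tsum_geometric_of_lt_one hr0.le hr1]
    _ ≤ x⁻¹ ^ 2 * r * (1 + x⁻¹) := by
        gcongr
        have h7 : 1 + Real.pi * x ≤ Real.exp (Real.pi * x) := by
          have := Real.add_one_le_exp (Real.pi * x); linarith
        have h8 : r ≤ (1 + x)⁻¹ := by
          rw [hr, Real.exp_neg]
          gcongr
          nlinarith
        have h9 : x / (1 + x) ≤ 1 - r := by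
          have : x / (1 + x) = 1 - (1 + x)⁻¹ := by field_simp; ring
          rw [this]; linarith
        calc (1 - r)⁻¹ ≤ (x / (1 + x))⁻¹ := inv_anti₀ (by positivity) h9
          _ = 1 + x⁻¹ := by field_simp; ring
    _ = _ := by ring

lemma gf_term (d : ℤ) (hd : Squarefree d) (w : ℂ) (n : ℕ) :
    ‖((T.cf d n * Real.sqrt n : ℝ) : ℂ) * cexp (-(2 * Real.pi * n * w))‖ ≤
      T.c * ((n : ℝ) ^ 2 * Real.exp (-(2 * Real.pi * n * w.re))) := by
  rw [norm_mul, Complex.norm_real, Real.norm_eq_abs, abs_mul, Complex.norm_exp]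
  have e : (-(2 * (Real.pi : ℂ) * n * w)).re = -(2 * Real.pi * n * w.re) := by
    have : (2 * (Real.pi : ℂ) * n * w) = ((2 * Real.pi * n : ℝ) : ℂ) * w := by push_cast; ring
    rw [this, neg_re, re_ofReal_mul]
  rw [e, abs_of_nonneg (Real.sqrt_nonneg _)]
  have h1 := cf_bound T d hd n
  have h2 : Real.sqrt n ≤ n := by
    rcases Nat.eq_zero_or_pos n with rfl | hn
    · simp
    · have : (1 : ℝ) ≤ n := by exact_mod_cast hn
      rw [Real.sqrt_le_left (by positivity)]
      nlinarith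
  have hc := c_pos T
  calc |T.cf d n| * Real.sqrt n * Real.exp (-(2 * Real.pi * n * w.re))
      ≤ T.c * n * n * Real.exp (-(2 * Real.pi * n * w.re)) := by gcongr
    _ = _ := by ring

lemma gf_summable (d : ℤ) (hd : Squarefree d) {w : ℂ} (hw : 0 < w.re) :
    Summable (fun n : ℕ => ((T.cf d n * Real.sqrt n : ℝ) : ℂ) * cexp (-(2 * Real.pi * n * w))) :=
  Summable.of_norm_bounded ((theta_sum hw).1.mul_left T.c) (gf_term T d hd w)

lemma gf_bound (d : ℤ) (hd : Squarefree d) {w : ℂ} (hw : 0 < w.re) :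
    ‖T.Gf d w‖ ≤ T.c * ((w.re⁻¹ ^ 2 + w.re⁻¹ ^ 3) * Real.exp (-(Real.pi * w.re))) := by
  unfold Twists.Gf
  refine (norm_tsum_le_tsum_norm
    (Summable.of_nonneg_of_le (fun n => norm_nonneg _) (gf_term T d hd w)
      ((theta_sum hw).1.mul_left T.c))).trans ?_
  refine ((Summable.of_nonneg_of_le (fun n => norm_nonneg _) (gf_term T d hd w)
      ((theta_sum hw).1.mul_left T.c)).tsum_le_tsum (gf_term T d hd w)
      ((theta_sum hw).1.mul_left T.c)).trans ?_
  rw [tsum_mul_left]
  exact mul_le_mul_of_nonneg_left (theta_sum hw).2 (c_pos T).le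

lemma gf_diff (d : ℤ) (hd : Squarefree d) : DifferentiableOn ℂ (T.Gf d) {w | 0 < w.re} := by
  intro w (hw : 0 < w.re)
  have ho : IsOpen {z : ℂ | w.re / 2 < z.re} := isOpen_lt continuous_const continuous_re
  have h : DifferentiableOn ℂ (T.Gf d) {z : ℂ | w.re / 2 < z.re} := by
    unfold Twists.Gf
    refine differentiableOn_tsum_of_summable_norm
      (u := fun n : ℕ => T.c * ((n : ℝ) ^ 2 * Real.exp (-(2 * Real.pi * n * (w.re / 2)))))
      ((theta_sum (by linarith)).1.mul_left T.c) (fun n => ?_) ho (fun n z hz => ?_)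
    · fun_prop
    · refine (gf_term T d hd z n).trans ?_
      have hz' : w.re / 2 < z.re := hz
      have hc := c_pos T
      gcongr
  exact (h.differentiableAt (ho.mem_nhds (by show w.re / 2 < w.re; linarith))).differentiableWithinAt

lemma gf_conj (d : ℤ) (w : ℂ) : T.Gf d (conj w) = conj (T.Gf d w) := by
  unfold Twists.Gf
  rw [Complex.conj_tsum]
  refine tsum_congr fun n => ?_
  rw [map_mul, Complex.conj_ofReal, ← Complex.exp_conj, map_neg, map_mul, map_mul, map_mul,
    Complex.conj_ofReal, map_natCast, map_ofNat]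

end Pool.Agent.Y703.QT8
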