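import Pool.Agent.H153R4.Pl

/-! QT-T8, part 2: Mellin transforms of functions that decay at `0` and at infinity. -/

set_option autoImplicit false

namespace Pool.Agent.Y703.QT8

open Complex MeasureTheory Filter Topology Set FourierTransform
open scoped ENNReal ComplexConjugate

/-- functions on `(0, ∞)` that decay exponentially at both ends -/
structure Dec (g : ℝ → ℂ) (K κ : ℝ) : Prop where
  cont : ContinuousOn g (Ioi 0)
  pos : 0 < κ
  top : ∀ u : ℝ, 1 ≤ u → ‖g u‖ ≤ K * Real.exp (-(κ * u))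
  bot : ∀ u : ℝ, 0 < u → u ≤ 1 → ‖g u‖ ≤ K * (u⁻¹ ^ 2 * Real.exp (-(κ * u⁻¹)))

variable {g : ℝ → ℂ} {K κ : ℝ}

/-- the constant of the pointwise bound -/
noncomputable def cB (κ : ℝ) (N : ℕ) : ℝ := (N + 2).factorial * κ⁻¹ ^ (N + 2)

lemma cB_pos (hκ : 0 < κ) (N : ℕ) : 0 < cB κ N := by unfold cB; positivity

lemma pow_exp (hκ : 0 < κ) (n : ℕ) {v : ℝ} (hv : 0 ≤ v) :
    v ^ n * Real.exp (-(κ * v)) ≤ n.factorial * κ⁻¹ ^ n := by
  have h := Real.pow_div_factorial_le_exp (κ * v) (by positivity) n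
  have h2 : (κ * v) ^ n ≤ n.factorial * Real.exp (κ * v) := by
    rw [div_le_iff₀ (by positivity)] at h
    linarith
  have e : v ^ n = κ⁻¹ ^ n * (κ * v) ^ n := by rw [← mul_pow]; field_simp
  rw [e]
  calc κ⁻¹ ^ n * (κ * v) ^ n * Real.exp (-(κ * v))
      ≤ κ⁻¹ ^ n * (n.factorial * Real.exp (κ * v)) * Real.exp (-(κ * v)) := by gcongr
    _ = n.factorial * κ⁻¹ ^ n * (Real.exp (κ * v) * Real.exp (-(κ * v))) := by ring
    _ = _ := by rw [← Real.exp_add, add_neg_cancel, Real.exp_zero, mul_one]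

lemma Dec.nonneg (hg : Dec g K κ) : 0 ≤ K := by
  have := (norm_nonneg _).trans (hg.top 1 le_rfl)
  exact nonneg_of_mul_nonneg_left this (Real.exp_pos _)

lemma Dec.pt (hg : Dec g K κ) (N : ℕ) {a : ℝ} (ha : |a| ≤ N) {u : ℝ} (hu : 0 < u) :
    u ^ a * ‖g u‖ ≤ K * cB κ N * min 1 (u⁻¹ ^ 2) := by
  have hK := hg.nonneg
  obtain ⟨ha1, ha2⟩ := abs_le.1 ha
  rcases le_total 1 u with h1 | h1
  · have hm : min 1 (u⁻¹ ^ 2) = u⁻¹ ^ 2 := by
      apply min_eq_right
      exact pow_le_one₀ (by positivity) (inv_le_one_of_one_le₀ h1)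
    rw [hm]
    have h2 : u ^ a ≤ u ^ N := by
      rw [← Real.rpow_natCast]
      exact Real.rpow_le_rpow_of_exponent_le h1 ha2
    have h3 := pow_exp hg.pos (N + 2) hu.le
    calc u ^ a * ‖g u‖ ≤ u ^ N * (K * Real.exp (-(κ * u))) :=
          mul_le_mul h2 (hg.top u h1) (norm_nonneg _) (by positivity)
      _ = K * (u ^ (N + 2) * Real.exp (-(κ * u))) * u⁻¹ ^ 2 := by
          rw [pow_add]; field_simp
      _ ≤ K * ((N + 2).factorial * κ⁻¹ ^ (N + 2)) * u⁻¹ ^ 2 := by gcongr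
      _ = _ := rfl
  · have hm : min 1 (u⁻¹ ^ 2) = 1 := by
      apply min_eq_left
      exact one_le_pow₀ (by rw [one_le_inv₀ hu]; exact h1)
    rw [hm, mul_one]
    have hv : 1 ≤ u⁻¹ := by rw [one_le_inv₀ hu]; exact h1
    have h2 : u ^ a ≤ u⁻¹ ^ N := by
      have : u ^ a = u⁻¹ ^ (-a) := by rw [Real.inv_rpow hu.le, Real.rpow_neg hu.le, inv_inv]
      rw [this, ← Real.rpow_natCast]
      exact Real.rpow_le_rpow_of_exponent_le hv (by linarith)
    have h3 := pow_exp hg.pos (N + 2) (inv_nonneg.2 hu.le)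
    calc u ^ a * ‖g u‖ ≤ u⁻¹ ^ N * (K * (u⁻¹ ^ 2 * Real.exp (-(κ * u⁻¹)))) :=
          mul_le_mul h2 (hg.bot u hu h1) (norm_nonneg _) (by positivity)
      _ = K * (u⁻¹ ^ (N + 2) * Real.exp (-(κ * u⁻¹))) := by rw [pow_add]; ring
      _ ≤ K * ((N + 2).factorial * κ⁻¹ ^ (N + 2)) := by gcongr

lemma Dec.le_rpow (hg : Dec g K κ) (a : ℝ) : ∃ C : ℝ, 0 ≤ C ∧ ∀ u : ℝ, 0 < u → ‖g u‖ ≤ C * u ^ (-a) := by
  obtain ⟨N, hN⟩ := exists_nat_ge |a|
  refine ⟨K * cB κ N, mul_nonneg hg.nonneg (cB_pos hg.pos N).le, fun u hu => ?_⟩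
  have h := hg.pt N hN hu
  have h2 : min 1 (u⁻¹ ^ 2) ≤ 1 := min_le_left _ _
  have h3 : u ^ a * ‖g u‖ ≤ K * cB κ N := by
    refine h.trans (mul_le_of_le_one_right (mul_nonneg hg.nonneg (cB_pos hg.pos N).le) h2)
  rw [Real.rpow_neg hu.le, ← div_eq_mul_inv, le_div_iff₀ (Real.rpow_pos_of_pos hu a), mul_comm]
  exact h3

lemma min_int : IntegrableOn (fun u : ℝ => min 1 (u⁻¹ ^ 2)) (Ioi 0) ∧
    ∫ u in Ioi (0 : ℝ), min 1 (u⁻¹ ^ 2) = 2 := by
  have e1 : ∀ u ∈ Ioc (0 : ℝ) 1, min 1 (u⁻¹ ^ 2) = 1 := by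
    intro u hu
    apply min_eq_left
    exact one_le_pow₀ (by rw [one_le_inv₀ hu.1]; exact hu.2)
  have e2 : ∀ u ∈ Ioi (1 : ℝ), min 1 (u⁻¹ ^ 2) = u ^ (-2 : ℝ) := by
    intro u (hu : 1 < u)
    rw [min_eq_right (pow_le_one₀ (by positivity) (inv_le_one_of_one_le₀ hu.le))]
    rw [Real.rpow_neg (by linarith), inv_pow]
    norm_num
  have i1 : IntegrableOn (fun u : ℝ => min 1 (u⁻¹ ^ 2)) (Ioc 0 1) :=
    (integrableOn_congr_fun e1 measurableSet_Ioc).2 (by simp)
  have i2 : IntegrableOn (fun u : ℝ => min 1 (u⁻¹ ^ 2)) (Ioi 1) :=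
    (integrableOn_congr_fun e2 measurableSet_Ioi).2
      (integrableOn_Ioi_rpow_of_lt (by norm_num) one_pos)
  have hu : Ioc (0 : ℝ) 1 ∪ Ioi 1 = Ioi 0 := Ioc_union_Ioi_eq_Ioi zero_le_one
  refine ⟨by rw [← hu]; exact i1.union i2, ?_⟩
  rw [← hu, setIntegral_union (Ioc_disjoint_Ioi le_rfl) measurableSet_Ioi i1 i2,
    setIntegral_congr_fun measurableSet_Ioc e1, setIntegral_congr_fun measurableSet_Ioi e2,
    integral_Ioi_rpow_of_lt (by norm_num) one_pos]
  norm_num

lemma Dec.conv_norm (hg : Dec g K κ) (N : ℕ) {s : ℂ} (hs : |s.re - 1| ≤ N) :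
    MellinConvergent g s ∧ ‖mellin g s‖ ≤ 2 * K * cB κ N := by
  have hb : ∀ u ∈ Ioi (0 : ℝ), ‖(u : ℂ) ^ (s - 1) • g u‖ ≤ K * cB κ N * min 1 (u⁻¹ ^ 2) := by
    intro u (hu : 0 < u)
    rw [norm_smul, Complex.norm_cpow_eq_rpow_re_of_pos hu, sub_re, one_re]
    exact hg.pt N hs hu
  have hm : AEStronglyMeasurable (fun u : ℝ => (u : ℂ) ^ (s - 1) • g u) (volume.restrict (Ioi 0)) := by
    have h1 : ContinuousOn (fun u : ℝ => (u : ℂ) ^ (s - 1)) (Ioi 0) := by
      intro u (hu : 0 < u)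
      exact (Complex.continuousAt_ofReal_cpow_const _ _ (Or.inr hu.ne')).continuousWithinAt
    exact (h1.smul hg.cont).aestronglyMeasurable measurableSet_Ioi
  have hi : IntegrableOn (fun u : ℝ => (u : ℂ) ^ (s - 1) • g u) (Ioi 0) := by
    refine Integrable.mono' (min_int.1.const_mul (K * cB κ N)) hm ?_
    filter_upwards [ae_restrict_mem measurableSet_Ioi] with u hu
    exact hb u hu
  refine ⟨hi, ?_⟩
  calc ‖mellin g s‖ ≤ ∫ u in Ioi (0 : ℝ), K * cB κ N * min 1 (u⁻¹ ^ 2) := by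
        unfold mellin
        refine norm_integral_le_of_norm_le (min_int.1.const_mul (K * cB κ N)) ?_
        filter_upwards [ae_restrict_mem measurableSet_Ioi] with u hu
        exact hb u hu
    _ = 2 * K * cB κ N := by rw [integral_const_mul, min_int.2]; ring

lemma Dec.conv (hg : Dec g K κ) (s : ℂ) : MellinConvergent g s := by
  obtain ⟨N, hN⟩ := exists_nat_ge |s.re - 1|
  exact (hg.conv_norm N hN).1

lemma Dec.diff (hg : Dec g K κ) : Differentiable ℂ (mellin g) := by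
  intro s
  have hO : ∀ (a : ℝ) (l : Filter ℝ), (∀ᶠ u : ℝ in l, 0 < u) →
      g =O[l] (fun u : ℝ => u ^ (-a)) := by
    intro a l hl
    obtain ⟨C, hC, h⟩ := hg.le_rpow a
    refine Asymptotics.IsBigO.of_bound C ?_
    filter_upwards [hl] with u hu
    rw [Real.norm_eq_abs, abs_of_pos (Real.rpow_pos_of_pos hu _)]
    exact h u hu
  refine mellin_differentiableAt_of_isBigO_rpow (a := s.re + 1) (b := s.re - 1)
    (hg.cont.locallyIntegrableOn measurableSet_Ioi) (hO _ _ (eventually_gt_atTop 0)) (by linarith)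
    (hO _ _ self_mem_nhdsWithin) (by linarith)

lemma exp_image : (fun u : ℝ => Real.exp (-u)) '' univ = Ioi 0 := by
  ext v
  constructor
  · rintro ⟨u, -, rfl⟩
    exact Real.exp_pos _
  · intro (hv : 0 < v)
    exact ⟨-Real.log v, mem_univ _, by simp [Real.exp_log hv]⟩

/-- Plancherel's theorem for the Mellin transform -/
lemma Dec.planch (hg : Dec g K κ) (x : ℝ) :
    ∫⁻ y : ℝ, ‖mellin g (x + y * I)‖ₑ ^ 2 =
      ENNReal.ofReal (2 * Real.pi) * ∫⁻ u in Ioi (0 : ℝ), ‖g u‖ₑ ^ 2 * ENNReal.ofReal (u ^ (2 * x - 1)) := by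
  set h : ℝ → ℂ := fun u => Real.exp (-x * u) • g (Real.exp (-u)) with hh
  have hcont : Continuous h := by
    have h1 : Continuous (fun u : ℝ => g (Real.exp (-u))) :=
      hg.cont.comp_continuous (by fun_prop) (fun u => Real.exp_pos _)
    have h2 : Continuous (fun u : ℝ => Real.exp (-x * u)) := by fun_prop
    exact h2.smul h1
  have hn : ∀ u, ‖h u‖ = Real.exp (-u) ^ x * ‖g (Real.exp (-u))‖ := by
    intro u
    simp only [hh, norm_smul, Real.norm_eq_abs, Real.abs_exp]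
    rw [← Real.exp_mul]
    ring_nf
  obtain ⟨C1, hC1, hb1⟩ := hg.le_rpow (x + 1)
  obtain ⟨C2, hC2, hb2⟩ := hg.le_rpow (x - 1)
  set C := max C1 C2 with hC
  have hC0 : 0 ≤ C := hC1.trans (le_max_left _ _)
  have b1 : ∀ u : ℝ, ‖h u‖ ≤ C * Real.exp u := by
    intro u
    have hv : 0 < Real.exp (-u) := Real.exp_pos _
    rw [hn]
    calc Real.exp (-u) ^ x * ‖g (Real.exp (-u))‖
        ≤ Real.exp (-u) ^ x * (C1 * Real.exp (-u) ^ (-(x + 1))) := by gcongr; exact hb1 _ hv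
      _ = C1 * (Real.exp (-u) ^ x * Real.exp (-u) ^ (-(x + 1))) := by ring
      _ = C1 * Real.exp u := by
          rw [← Real.rpow_add hv, show x + -(x + 1) = -1 by ring, Real.rpow_neg_one,
            ← Real.exp_neg, neg_neg]
      _ ≤ C * Real.exp u := by gcongr; exact le_max_left _ _
  have b2 : ∀ u : ℝ, ‖h u‖ ≤ C * Real.exp (-u) := by
    intro u
    have hv : 0 < Real.exp (-u) := Real.exp_pos _
    rw [hn]
    calc Real.exp (-u) ^ x * ‖g (Real.exp (-u))‖
        ≤ Real.exp (-u) ^ x * (C2 * Real.exp (-u) ^ (-(x - 1))) := by gcongr; exact hb2 _ hv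
      _ = C2 * (Real.exp (-u) ^ x * Real.exp (-u) ^ (-(x - 1))) := by ring
      _ = C2 * Real.exp (-u) := by
          rw [← Real.rpow_add hv, show x + -(x - 1) = 1 by ring, Real.rpow_one]
      _ ≤ C * Real.exp (-u) := by gcongr; exact le_max_right _ _
  have hint : Integrable h := by
    have e1 : IntegrableOn h (Iic 0) := by
      have := (integrableOn_exp_mul_Iic (one_pos : (0 : ℝ) < 1) 0).const_mul C
      refine Integrable.mono' this hcont.aestronglyMeasurable ?_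
      filter_upwards with u
      simpa using b1 u
    have e2 : IntegrableOn h (Ioi 0) := by
      have := (integrableOn_exp_mul_Ioi (neg_lt_zero.2 (one_pos : (0 : ℝ) < 1)) 0).const_mul C
      refine Integrable.mono' this hcont.aestronglyMeasurable ?_
      filter_upwards with u
      simpa using b2 u
    rw [← integrableOn_univ, ← Iic_union_Ioi (a := (0:ℝ))]
    exact e1.union e2
  have hbd : ∀ u, ‖h u‖ ≤ C := by
    intro u
    rcases le_total u 0 with hu | hu
    · refine (b1 u).trans (mul_le_of_le_one_right hC0 (Real.exp_le_one_iff.2 hu))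
    · refine (b2 u).trans (mul_le_of_le_one_right hC0 (Real.exp_le_one_iff.2 (by linarith)))
  have hsq : Integrable (fun u => ‖h u‖ ^ 2) := by
    refine Integrable.mono' (hint.norm.const_mul C) (by fun_prop) ?_
    filter_upwards with u
    rw [Real.norm_of_nonneg (by positivity), pow_two]
    exact mul_le_mul_of_nonneg_right (hbd u) (norm_nonneg _)
  have hL2 : MemLp h 2 := (memLp_two_iff_integrable_sq_norm hcont.aestronglyMeasurable).mpr hsq
  have hpl := Pool.Agent.H153R4.plancherel h hint hL2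
  have hmel : ∀ y : ℝ, mellin g (x + y * I) = 𝓕 h (y * (2 * Real.pi)⁻¹) := by
    intro y
    have := mellin_eq_fourier g (s := (x : ℂ) + y * I)
    simp only [add_re, ofReal_re, mul_re, I_re, mul_zero, ofReal_im, I_im, mul_one, sub_self,
      add_zero, add_im, mul_im, zero_add] at this
    rw [this, div_eq_mul_inv]
  have e1 : ∫⁻ y : ℝ, ‖mellin g (x + y * I)‖ₑ ^ 2 =
      ENNReal.ofReal (2 * Real.pi) * ∫⁻ ξ : ℝ, ‖𝓕 h ξ‖ₑ ^ 2 := by
    simp_rw [hmel]
    have hm : (fun ξ : ℝ => ENNReal.ofReal (2 * Real.pi)) = fun _ => ENNReal.ofReal |(2 * Real.pi)| := by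
      rw [abs_of_pos (by positivity)]
    have hcv := lintegral_image_eq_lintegral_abs_deriv_mul (s := (univ : Set ℝ))
      (f := fun ξ : ℝ => (2 * Real.pi) * ξ) (f' := fun _ => 2 * Real.pi) MeasurableSet.univ
      (fun ξ _ => by
        have h := (hasDerivAt_id ξ).const_mul (2 * Real.pi)
        rw [mul_one] at h
        exact h.hasDerivWithinAt)
      (fun a _ b _ hab => mul_left_cancel₀ (by positivity) hab)
      (fun y => ‖𝓕 h (y * (2 * Real.pi)⁻¹)‖ₑ ^ 2)
    have him : (fun ξ : ℝ => (2 * Real.pi) * ξ) '' univ = univ := by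
      ext v
      simp only [mem_image, mem_univ, true_and, iff_true]
      exact ⟨(2 * Real.pi)⁻¹ * v, by field_simp⟩
    rw [him, setLIntegral_univ, setLIntegral_univ] at hcv
    rw [hcv, abs_of_pos (by positivity : (0 : ℝ) < 2 * Real.pi),
      lintegral_const_mul' _ _ ENNReal.ofReal_ne_top]
    congr 1
    refine lintegral_congr fun ξ => ?_
    congr 3
    field_simp
  rw [e1, hpl]
  congr 1
  have hcv := lintegral_image_eq_lintegral_abs_deriv_mul (s := (univ : Set ℝ))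
      (f := fun u : ℝ => Real.exp (-u)) (f' := fun u => -Real.exp (-u)) MeasurableSet.univ
      (fun u _ => by
        have := ((hasDerivAt_id u).neg.exp).hasDerivWithinAt (s := univ)
        simpa using this)
      (fun a _ b _ hab => by
        have := Real.exp_injective hab
        linarith)
      (fun v => ‖g v‖ₑ ^ 2 * ENNReal.ofReal (v ^ (2 * x - 1)))
  rw [exp_image, setLIntegral_univ] at hcv
  rw [hcv]
  refine lintegral_congr fun u => ?_
  have hv : 0 < Real.exp (-u) := Real.exp_pos _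
  rw [abs_neg, abs_of_pos hv]
  have e2 : ‖h u‖ₑ = ENNReal.ofReal (Real.exp (-u) ^ x) * ‖g (Real.exp (-u))‖ₑ := by
    rw [← ofReal_norm, hn, ENNReal.ofReal_mul (by positivity), ofReal_norm]
  rw [e2, mul_pow, ← ENNReal.ofReal_pow (by positivity)]
  have e3 : (Real.exp (-u) ^ x) ^ 2 = Real.exp (-u) * Real.exp (-u) ^ (2 * x - 1) := by
    rw [← Real.rpow_natCast, ← Real.rpow_mul hv.le]
    nth_rewrite 2 [← Real.rpow_one (Real.exp (-u))]
    rw [← Real.rpow_add hv]
    congr 1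
    push_cast
    ring
  rw [e3, ENNReal.ofReal_mul hv.le]
  ring

end Pool.Agent.Y703.QT8
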