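import Pool.Agent.Y703.QT8.Coef
import Pool.Agent.Y703.QT8.Mel
import Pool.Agent.H581R3.GPR.Rot

/-! QT-T8, part 3: the theta functions on rays, and the rotation of the Mellin transform. -/

set_option autoImplicit false

namespace Pool.Agent.Y703.QT8

open Complex MeasureTheory Filter Topology Set
open Pool.Agent.Y19.QT
open Pool.Agent.H306R2.RZ (js Gk)
open scoped ENNReal ComplexConjugate

variable {Q : ℕ} {lam : ℕ → ℝ} (T : Twists Q lam)

lemma one_le_abs {d : ℤ} (hd : Squarefree d) : 1 ≤ |(d : ℝ)| := by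
  have h : d ≠ 0 := hd.ne_zero
  have h1 : 1 ≤ |d| := Int.one_le_abs h
  have : ((1 : ℤ) : ℝ) ≤ ((|d| : ℤ) : ℝ) := by exact_mod_cast h1
  simpa using this

lemma q_low {d : ℤ} (hd : Squarefree d) : T.c⁻¹ ≤ T.q d := by
  have h1 := one_le_abs hd
  have h2 := T.q_lower d hd
  have hc := c_pos T
  rw [inv_le_iff_one_le_mul₀' hc]
  linarith

lemma q_pos {d : ℤ} (hd : Squarefree d) : 0 < T.q d :=
  lt_of_lt_of_le (inv_pos.2 (c_pos T)) (q_low T hd)

lemma F_inv {d : ℤ} (hd : Squarefree d) {z : ℂ} (hz : 0 < z.re) :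
    T.F d (1 / z) = T.w d * z ^ 2 * T.F d z := by
  have h := T.fe d hd z hz
  unfold Twists.F Twists.Gf Twists.cf
  simp only [mul_div_assoc] at h ⊢
  exact h

lemma w_norm {d : ℤ} (hd : Squarefree d) : ‖(T.w d : ℂ)‖ = 1 := by
  have h := T.w_sq d hd
  rw [Complex.norm_real, Real.norm_eq_abs]
  rw [← one_pow (2 : ℕ)] at h
  exact (sq_eq_sq_iff_abs_eq_abs _ _).1 h |>.trans abs_one

lemma ray_re (θ u : ℝ) : (ray θ u).re = u * Real.cos θ := by
  unfold ray
  rw [re_ofReal_mul, Complex.exp_ofReal_mul_I_re]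

lemma ray_norm (θ : ℝ) {u : ℝ} (hu : 0 < u) : ‖ray θ u‖ = u := by
  unfold ray
  rw [norm_mul, Complex.norm_exp_ofReal_mul_I, mul_one, Complex.norm_real, Real.norm_eq_abs,
    abs_of_pos hu]

lemma ray_inv (θ : ℝ) {u : ℝ} (hu : 0 < u) : ray θ u = 1 / ray (-θ) u⁻¹ := by
  unfold ray
  have h : (u : ℂ) ≠ 0 := by exact_mod_cast hu.ne'
  rw [one_div, mul_inv, ← Complex.exp_neg]
  push_cast
  rw [inv_inv]
  ring_nf

lemma ray_conj (θ u : ℝ) : ray (-θ) u = conj (ray θ u) := by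
  unfold ray
  rw [map_mul, Complex.conj_ofReal, ← Complex.exp_conj, map_mul, Complex.conj_ofReal, Complex.conj_I]
  push_cast
  ring_nf

lemma F_ray_neg (d : ℤ) (θ u : ℝ) : T.F d (ray (-θ) u) = conj (T.F d (ray θ u)) := by
  unfold Twists.F
  rw [← gf_conj, map_div₀, Complex.conj_ofReal, ray_conj]

lemma F_ray_neg_norm (d : ℤ) (θ u : ℝ) : ‖T.F d (ray (-θ) u)‖ = ‖T.F d (ray θ u)‖ := by
  rw [F_ray_neg, Complex.norm_conj]

/-- on `(0, 1]`: the functional equation -/
lemma F_ray_inv {d : ℤ} (hd : Squarefree d) {θ : ℝ} (hθ : |θ| < Real.pi / 2) {u : ℝ} (hu : 0 < u) :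
    ‖T.F d (ray θ u)‖ = u⁻¹ ^ 2 * ‖T.F d (ray θ u⁻¹)‖ := by
  have hc : 0 < Real.cos (-θ) := by
    rw [Real.cos_neg]; exact Real.cos_pos_of_mem_Ioo (abs_lt.1 hθ |>.imp (by intro h; linarith) id)
  have hz : 0 < (ray (-θ) u⁻¹).re := by
    rw [ray_re]; positivity
  rw [ray_inv θ hu, F_inv T hd hz, norm_mul, norm_mul, w_norm T hd, norm_pow,
    ray_norm _ (by positivity), one_mul, F_ray_neg_norm]

/-- the cosine over `q` -/
noncomputable def x0 (d : ℤ) (θ : ℝ) : ℝ := Real.cos θ / T.q d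

lemma x0_pos {d : ℤ} (hd : Squarefree d) {θ : ℝ} (hθ : |θ| < Real.pi / 2) : 0 < x0 T d θ := by
  have hc : 0 < Real.cos θ :=
    Real.cos_pos_of_mem_Ioo (abs_lt.1 hθ |>.imp (by intro h; linarith) id)
  exact div_pos hc (q_pos T hd)

/-- the constant -/
noncomputable def Kd (d : ℤ) (θ : ℝ) : ℝ := T.c * ((x0 T d θ)⁻¹ ^ 2 + (x0 T d θ)⁻¹ ^ 3)

lemma F_top {d : ℤ} (hd : Squarefree d) {θ : ℝ} (hθ : |θ| < Real.pi / 2) {u : ℝ} (hu : 1 ≤ u) :
    ‖T.F d (ray θ u)‖ ≤ Kd T d θ * Real.exp (-(Real.pi * x0 T d θ * u)) := by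
  have hx := x0_pos T hd hθ
  have hq := q_pos T hd
  have hre : (ray θ u / T.q d).re = x0 T d θ * u := by
    rw [Complex.div_ofReal_re, ray_re]; unfold x0; ring
  have h := gf_bound T d hd (w := ray θ u / T.q d) (by rw [hre]; positivity)
  rw [hre] at h
  unfold Twists.F
  refine h.trans ?_
  have h1 : (x0 T d θ * u)⁻¹ ≤ (x0 T d θ)⁻¹ := by
    apply inv_anti₀ hx
    nlinarith
  have hc := c_pos T
  have h2 : 0 < (x0 T d θ * u)⁻¹ := by positivity
  unfold Kd
  rw [mul_assoc, ← mul_assoc Real.pi]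
  gcongr

lemma F_cont {d : ℤ} (hd : Squarefree d) {θ : ℝ} (hθ : |θ| < Real.pi / 2) :
    ContinuousOn (fun u : ℝ => T.F d (ray θ u)) (Ioi 0) := by
  have h1 := (gf_diff T d hd).continuousOn
  have h2 : ContinuousOn (fun u : ℝ => ray θ u / T.q d) (Ioi 0) := by
    unfold ray
    fun_prop
  refine h1.comp h2 ?_
  intro u (hu : 0 < u)
  have hx := x0_pos T hd hθ
  show 0 < (ray θ u / T.q d).re
  have hre : (ray θ u / T.q d).re = x0 T d θ * u := by
    rw [Complex.div_ofReal_re, ray_re]; unfold x0; ring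
  rw [hre]; positivity

lemma F_dec {d : ℤ} (hd : Squarefree d) {θ : ℝ} (hθ : |θ| < Real.pi / 2) :
    Dec (fun u : ℝ => T.F d (ray θ u)) (Kd T d θ) (Real.pi * x0 T d θ) where
  cont := F_cont T hd hθ
  pos := mul_pos Real.pi_pos (x0_pos T hd hθ)
  top := fun u hu => F_top T hd hθ hu
  bot := fun u hu hu1 => by
    have h := F_top T hd hθ (u := u⁻¹) ((one_le_inv₀ hu).2 hu1)
    rw [F_ray_inv T hd hθ hu]
    calc u⁻¹ ^ 2 * ‖T.F d (ray θ u⁻¹)‖
        ≤ u⁻¹ ^ 2 * (Kd T d θ * Real.exp (-(Real.pi * x0 T d θ * u⁻¹))) := by gcongr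
      _ = _ := by ring

/-- the Mellin transform along the ray of angle `θ` -/
noncomputable def MM (d : ℤ) (θ : ℝ) (s : ℂ) : ℂ := mellin (fun u : ℝ => T.F d (ray θ u)) s

/-- the coefficients -/
noncomputable def bb (d : ℤ) (n : ℕ) : ℝ := T.cf d n * Real.sqrt n

lemma bb_zero (d : ℤ) : bb T d 0 = 0 := by simp [bb]

lemma bb_le {d : ℤ} (hd : Squarefree d) (n : ℕ) : |bb T d n| ≤ T.c * (n : ℝ) ^ (3 / 2 : ℝ) := by
  unfold bb
  rw [abs_mul, abs_of_nonneg (Real.sqrt_nonneg _)]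
  have h1 := cf_bound T d hd n
  have h2 : (n : ℝ) ^ (3 / 2 : ℝ) = n * Real.sqrt n := by
    rcases Nat.eq_zero_or_pos n with rfl | hn
    · rw [Nat.cast_zero, Real.zero_rpow (by norm_num), zero_mul]
    · have hn' : (0 : ℝ) < n := by exact_mod_cast hn
      rw [Real.sqrt_eq_rpow, show (3 / 2 : ℝ) = 1 + 1 / 2 by norm_num, Real.rpow_add hn',
        Real.rpow_one]
  rw [h2]
  calc |T.cf d n| * Real.sqrt n ≤ T.c * n * Real.sqrt n := by gcongr
    _ = _ := by ring

lemma cpow_rot {x θ : ℝ} (hx : 0 < x) (hθ : |θ| < Real.pi) (s : ℂ) :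
    ((x : ℂ) * cexp (-(θ * I))) ^ s = (x : ℂ) ^ s * cexp (-(θ * I * s)) := by
  obtain ⟨h1, h2⟩ := abs_lt.1 hθ
  have hx' : (x : ℂ) ≠ 0 := by exact_mod_cast hx.ne'
  have hne : (x : ℂ) * cexp (-(θ * I)) ≠ 0 := mul_ne_zero hx' (Complex.exp_ne_zero _)
  rw [Complex.cpow_def_of_ne_zero hne, Complex.cpow_def_of_ne_zero hx',
    Complex.log_ofReal_mul hx (Complex.exp_ne_zero _), Complex.log_exp (by simp; linarith)
      (by simp; linarith), ← Complex.exp_add, Complex.ofReal_log hx.le]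
  congr 1
  ring

lemma mm_series {d : ℤ} (hd : Squarefree d) {θ : ℝ} (hθ : |θ| < Real.pi / 2) {s : ℂ}
    (hs : 5 / 2 < s.re) :
    MM T d θ s = cexp (-(θ * I * s)) *
      (Complex.Gamma s * ∑' n : ℕ, (bb T d n : ℂ) * ((T.q d / (2 * Real.pi * n) : ℝ) : ℂ) ^ s) := by
  have hq := q_pos T hd
  have hpi := Real.pi_pos
  have hcos : 0 < Real.cos θ :=
    Real.cos_pos_of_mem_Ioo (abs_lt.1 hθ |>.imp (by intro h; linarith) id)
  set r : ℕ → ℂ := fun n => ((2 * Real.pi * n / T.q d : ℝ) : ℂ) * cexp (θ * I) with hr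
  have hrre : ∀ n : ℕ, (r n).re = 2 * Real.pi * n / T.q d * Real.cos θ := by
    intro n
    rw [hr]
    simp only
    rw [re_ofReal_mul, Complex.exp_ofReal_mul_I_re]
  have hrpos : ∀ n : ℕ, 0 < n → 0 < (r n).re := by
    intro n hn
    have : (0 : ℝ) < n := by exact_mod_cast hn
    rw [hrre]; positivity
  set G : ℕ → ℝ → ℂ := fun n u => (bb T d n : ℂ) * ((u : ℂ) ^ (s - 1) * cexp (-(r n * u))) with hG
  have hGn : ∀ n : ℕ, ∀ u ∈ Ioi (0 : ℝ),
      ‖G n u‖ = |bb T d n| * (u ^ (s.re - 1) * Real.exp (-((r n).re * u))) := by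
    intro n u (hu : 0 < u)
    rw [hG]
    simp only
    rw [norm_mul, norm_mul, Complex.norm_real, Real.norm_eq_abs,
      Complex.norm_cpow_eq_rpow_re_of_pos hu, Complex.norm_exp, sub_re, one_re, neg_re,
      re_mul_ofReal]
  have hIr : ∀ n : ℕ, 0 < n → IntegrableOn (fun u : ℝ => u ^ (s.re - 1) *
      Real.exp (-((r n).re * u))) (Ioi 0) := by
    intro n hn
    have h := integrableOn_rpow_mul_exp_neg_mul_rpow (p := 1) (s := s.re - 1) (b := (r n).re)
      (by linarith) one_pos (hrpos n hn)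
    simpa [Real.rpow_one] using h
  have hI : ∀ n : ℕ, Integrable (G n) (volume.restrict (Ioi 0)) := by
    intro n
    rcases Nat.eq_zero_or_pos n with rfl | hn
    · have : G 0 = fun _ => 0 := by
        ext u; rw [hG]; simp [bb_zero]
      rw [this]; exact integrable_zero _ _ _
    · refine Integrable.mono' ((hIr n hn).const_mul |bb T d n|) ?_ ?_
      · have h1 : ContinuousOn (G n) (Ioi 0) := by
          rw [hG]
          intro u (hu : 0 < u)
          have := (Complex.continuousAt_ofReal_cpow_const u (s - 1) (Or.inr hu.ne')).continuousWithinAt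
            (s := Ioi 0)
          have h2 : ContinuousWithinAt (fun u : ℝ => cexp (-(r n * u))) (Ioi 0) u := by
            fun_prop
          exact continuousWithinAt_const.mul (this.mul h2)
        exact h1.aestronglyMeasurable measurableSet_Ioi
      · filter_upwards [ae_restrict_mem measurableSet_Ioi] with u hu
        rw [hGn n u hu]
  have hIn : ∀ n : ℕ, ∫ u in Ioi (0 : ℝ), ‖G n u‖ =
      |bb T d n| * ((1 / (r n).re) ^ s.re * Real.Gamma s.re) := by
    intro n
    rw [setIntegral_congr_fun measurableSet_Ioi (hGn n), integral_const_mul]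
    rcases Nat.eq_zero_or_pos n with rfl | hn
    · simp [bb_zero]
    · rw [Real.integral_rpow_mul_exp_neg_mul_Ioi (by linarith) (hrpos n hn)]
  have hS : Summable (fun n : ℕ => ∫ u in Ioi (0 : ℝ), ‖G n u‖) := by
    simp_rw [hIn]
    have h0 : Summable (fun n : ℕ => (n : ℝ) ^ (3 / 2 - s.re)) :=
      Real.summable_nat_rpow.2 (by linarith)
    refine Summable.of_nonneg_of_le (fun n => ?_) (fun n => ?_)
      (h0.mul_left (T.c * (T.q d / (2 * Real.pi * Real.cos θ)) ^ s.re * Real.Gamma s.re))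
    · have h1 := (Real.Gamma_pos_of_pos (show (0 : ℝ) < s.re by linarith)).le
      have h2 : 0 ≤ 1 / (r n).re := by rw [hrre]; positivity
      positivity
    · have h1 := Real.Gamma_pos_of_pos (show (0 : ℝ) < s.re by linarith)
      rcases Nat.eq_zero_or_pos n with rfl | hn
      · rw [bb_zero, abs_zero, zero_mul]
        have := c_pos T
        positivity
      · have hn' : (0 : ℝ) < n := by exact_mod_cast hn
        have e : 1 / (r n).re = T.q d / (2 * Real.pi * Real.cos θ) * (n : ℝ)⁻¹ := by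
          rw [hrre]; field_simp
        rw [e, Real.mul_rpow (by positivity) (by positivity), Real.inv_rpow hn'.le,
          ← Real.rpow_neg hn'.le, sub_eq_add_neg, Real.rpow_add hn']
        have hb := bb_le T hd n
        calc |bb T d n| * ((T.q d / (2 * Real.pi * Real.cos θ)) ^ s.re * (n : ℝ) ^ (-s.re) *
              Real.Gamma s.re)
            ≤ T.c * (n : ℝ) ^ (3 / 2 : ℝ) * ((T.q d / (2 * Real.pi * Real.cos θ)) ^ s.re *
              (n : ℝ) ^ (-s.re) * Real.Gamma s.re) := by gcongr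
          _ = _ := by ring
  have key := integral_tsum_of_summable_integral_norm hI hS
  have e1 : MM T d θ s = ∫ u in Ioi (0 : ℝ), ∑' n : ℕ, G n u := by
    unfold MM mellin
    refine setIntegral_congr_fun measurableSet_Ioi fun u hu => ?_
    simp only [smul_eq_mul]
    unfold Twists.F Twists.Gf
    rw [← tsum_mul_left]
    refine tsum_congr fun n => ?_
    rw [hG, hr]
    unfold bb ray
    simp only
    have e2 : cexp (-(2 * Real.pi * n * (u * cexp (θ * I) / T.q d))) =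
        cexp (-(((2 * Real.pi * n / T.q d : ℝ) : ℂ) * cexp (θ * I) * u)) := by
      congr 1
      push_cast
      ring
    rw [e2]
    ring
  rw [e1, ← key, ← mul_assoc, ← tsum_mul_left]
  refine tsum_congr fun n => ?_
  rcases Nat.eq_zero_or_pos n with rfl | hn
  · have : G 0 = fun _ => 0 := by
      ext u; rw [hG]; simp [bb_zero]
    rw [this, bb_zero]; simp
  · have hn' : (0 : ℝ) < n := by exact_mod_cast hn
    rw [hG]
    simp only
    rw [integral_const_mul, Pool.Agent.H581R3.GPR.Rot.rot_formula (by linarith) (hrpos n hn)]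
    have e3 : 1 / r n = ((T.q d / (2 * Real.pi * n) : ℝ) : ℂ) * cexp (-(θ * I)) := by
      rw [hr, Complex.exp_neg]
      push_cast
      have : cexp (θ * I) ≠ 0 := Complex.exp_ne_zero _
      have h4 : (Real.pi : ℂ) ≠ 0 := by exact_mod_cast hpi.ne'
      have h5 : (n : ℂ) ≠ 0 := by exact_mod_cast hn'.ne'
      have h6 : (T.q d : ℂ) ≠ 0 := by exact_mod_cast hq.ne'
      field_simp
    rw [e3, cpow_rot (by positivity) (by linarith [abs_lt.1 hθ])]
    ring

lemma ray_zero (u : ℝ) : ray 0 u = u := by simp [ray]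

lemma mm_zero (d : ℤ) (s : ℂ) : MM T d 0 s = mellin (fun u : ℝ => T.F d (u : ℂ)) s := by
  unfold MM
  simp_rw [ray_zero]

lemma mm_diff {d : ℤ} (hd : Squarefree d) {θ : ℝ} (hθ : |θ| < Real.pi / 2) :
    Differentiable ℂ (MM T d θ) := (F_dec T hd hθ).diff

/-- rotation -/
lemma mm_rot {d : ℤ} (hd : Squarefree d) {θ : ℝ} (hθ : |θ| < Real.pi / 2) (s : ℂ) :
    MM T d θ s = cexp (-(θ * I * s)) * MM T d 0 s := by
  have h0 : |(0 : ℝ)| < Real.pi / 2 := by rw [abs_zero]; positivity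
  have hf : AnalyticOnNhd ℂ (MM T d θ) univ := (mm_diff T hd hθ).differentiableOn.analyticOnNhd isOpen_univ
  have hg : AnalyticOnNhd ℂ (fun s => cexp (-(θ * I * s)) * MM T d 0 s) univ := by
    refine DifferentiableOn.analyticOnNhd (Differentiable.differentiableOn ?_) isOpen_univ
    have := mm_diff T hd h0
    fun_prop
  have hev : MM T d θ =ᶠ[𝓝 (3 : ℂ)] fun s => cexp (-(θ * I * s)) * MM T d 0 s := by
    have ho : IsOpen {z : ℂ | 5 / 2 < z.re} := isOpen_lt continuous_const continuous_re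
    filter_upwards [ho.mem_nhds (show (5 : ℝ) / 2 < (3 : ℂ).re by norm_num)] with z hz
    rw [mm_series T hd hθ hz, mm_series T hd h0 hz]
    simp
  exact congrFun (hf.eq_of_eventuallyEq hg hev) s

/-- the rotated form of the norm of the Mellin transform -/
lemma mm_norm {d : ℤ} (hd : Squarefree d) {θ : ℝ} (hθ : |θ| < Real.pi / 2) (s : ℂ) :
    ‖MM T d 0 s‖ = Real.exp (-(θ * s.im)) * ‖MM T d θ s‖ := by
  rw [mm_rot T hd hθ s, norm_mul, Complex.norm_exp]
  have e : (-(θ * I * s)).re = θ * s.im := by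
    simp
  rw [e, ← mul_assoc, ← Real.exp_add, neg_add_cancel, Real.exp_zero, one_mul]

end Pool.Agent.Y703.QT8
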